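import Mathlib

/-!
# Irreducible families of rank one nilpotent operators

`P u φ` is thought of as: the operator `v ↦ φ(v) u`, with `φ(u) = 0`, is in a given Lie algebra of
endomorphisms of `U`, stable under a group that acts on `U` so that all its subgroups of finite
index act irreducibly.  Then either all the operators with `φ(u) = 0` are in the Lie algebra (and
`dim U > 2`) or there is an alternating form `β`, preserved up to scalars by the group, such that
the operators `v ↦ β(u, v) u` are in the Lie algebra.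
-/

set_option linter.unusedSectionVars false

namespace Pool.Agent.W522.U

open Module

noncomputable section

variable {K U G : Type*} [Field K] [CharZero K] [AddCommGroup U] [Module K U]
  [FiniteDimensional K U] [Group G] (r : Representation K G U)

/-- The closure properties of the set of rank one nilpotent elements of a Lie algebra. -/
structure Sys (P : U → Dual K U → Prop) : Prop where
  ker : ∀ u φ, P u φ → φ u = 0
  zero : ∀ u, P u 0
  add : ∀ u φ φ', P u φ → P u φ' → P u (φ + φ')
  smul : ∀ (c : K) u φ, P u φ → P u (c • φ)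
  addu : ∀ u v φ, P u φ → P v φ → P (u + v) φ
  smulu : ∀ (c : K) u φ, P u φ → P (c • u) φ
  exp : ∀ u φ v ψ, P u φ → P v ψ → P (v + φ v • u) (ψ - ψ u • φ)
  conj : ∀ g u φ, P u φ → P (r g u) (φ.comp (r g⁻¹))

/-- All subgroups of finite index act irreducibly. -/
def Irr : Prop := ∀ Δ : Subgroup G, Δ.FiniteIndex → ∀ W : Submodule K U,
  (∀ s ∈ Δ, ∀ u ∈ W, r s u ∈ W) → W = ⊥ ∨ W = ⊤

theorem r_inv (s : G) (v : U) : r s⁻¹ (r s v) = v := by
  rw [← Module.End.mul_apply, ← map_mul, inv_mul_cancel, map_one]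
  rfl

theorem r_inv' (s : G) (v : U) : r s (r s⁻¹ v) = v := by
  rw [← Module.End.mul_apply, ← map_mul, mul_inv_cancel, map_one]
  rfl

theorem r_mul (s t : G) (v : U) : r (s * t) v = r s (r t v) := by
  rw [map_mul]
  rfl

theorem exists_scalar {ι : Type*} (s : Finset ι) (a b : ι → K)
    (h : ∀ i ∈ s, a i ≠ 0 ∨ b i ≠ 0) : ∃ c : K, c ≠ 0 ∧ ∀ i ∈ s, a i + c * b i ≠ 0 := by
  classical
  obtain ⟨c, hc⟩ := Infinite.exists_notMem_finset (insert (0 : K) (s.image (fun i => -a i / b i)))
  rw [Finset.mem_insert, not_or] at hc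
  refine ⟨c, hc.1, fun i hi h0 => ?_⟩
  by_cases hb : b i = 0
  · rcases h i hi with h1 | h1
    · rw [hb, mul_zero, add_zero] at h0
      exact h1 h0
    · exact h1 hb
  · apply hc.2
    rw [Finset.mem_image]
    refine ⟨i, hi, ?_⟩
    field_simp
    linear_combination -h0

variable {r} {P : U → Dual K U → Prop} (hP : Sys r P)

/-- The submodule of all `φ` with `P u φ`. -/
def Phi (hP : Sys r P) (u : U) : Submodule K (Dual K U) where
  carrier := {φ | P u φ}
  zero_mem' := hP.zero u
  add_mem' := fun h h' => hP.add u _ _ h h'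
  smul_mem' := fun c _ h => hP.smul c u _ h

theorem mem_Phi (u : U) (φ : Dual K U) : φ ∈ Phi hP u ↔ P u φ := Iff.rfl

/-- Vectors for which the space `Phi` has dimension `m`. -/
def XX (hP : Sys r P) (m : ℕ) (u : U) : Prop := u ≠ 0 ∧ finrank K (Phi hP u) = m

/-- Adjacency. -/
def Adj (P : U → Dual K U → Prop) (u v : U) : Prop := ∃ φ, P u φ ∧ φ v ≠ 0

include hP in
theorem inter {u v : U} {φ ψ : Dual K U} (h1 : P u φ) (h2 : φ v ≠ 0) (h3 : P v ψ)
    (h4 : ψ u = 0) : P u ψ := by
  have h5 := hP.exp u φ v ψ h1 h3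
  rw [h4, zero_smul, sub_zero] at h5
  have h6 := hP.addu _ _ _ h5 (hP.smulu (-1) v ψ h3)
  have h7 : v + φ v • u + (-1 : K) • v = φ v • u := by
    rw [neg_one_smul]
    abel
  rw [h7] at h6
  have h8 := hP.smulu (φ v)⁻¹ _ _ h6
  rwa [smul_smul, inv_mul_cancel₀ h2, one_smul] at h8

variable {m : ℕ} (hm : ∀ u : U, u ≠ 0 → finrank K (Phi hP u) ≤ m)

include hm in
theorem adj_symm {u v : U} (hu : XX hP m u) (hv : XX hP m v) (h : Adj P u v) : Adj P v u := by
  by_contra hcon
  obtain ⟨φ, h1, h2⟩ := h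
  have h3 : ∀ ψ, P v ψ → ψ u = 0 := by
    intro ψ hψ
    by_contra h4
    exact hcon ⟨ψ, hψ, h4⟩
  have h4 : Phi hP v < Phi hP u := by
    refine lt_of_le_of_ne (fun ψ hψ => inter hP h1 h2 hψ (h3 ψ hψ)) (fun h5 => ?_)
    have h6 : φ ∈ Phi hP v := by
      rw [h5]
      exact h1
    exact h2 (hP.ker _ _ h6)
  have h5 := Submodule.finrank_lt_finrank_of_lt h4
  rw [hv.2, hu.2] at h5
  exact lt_irrefl _ h5

include hP in
theorem phi_mem_line {u v : U} {φ : Dual K U} (h1 : P u φ) (h2 : φ v ≠ 0) (c : K)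
    {ψ : Dual K U} (h3 : P v ψ) : P (v + c • u) (ψ - (c / φ v * ψ u) • φ) := by
  have h4 := hP.exp u ((c / φ v) • φ) v ψ (hP.smul _ _ _ h1) h3
  rw [LinearMap.smul_apply, smul_eq_mul, div_mul_cancel₀ _ h2, smul_smul, mul_comm (ψ u)] at h4
  exact h4

include hm in
theorem line {u v : U} (hv : XX hP m v) (h : Adj P u v) (c : K) : XX hP m (v + c • u) := by
  obtain ⟨φ, h1, h2⟩ := h
  have hne : v + c • u ≠ 0 := by
    intro h0
    have h3 := congrArg φ h0
    rw [map_add, map_smul, hP.ker _ _ h1, smul_zero, add_zero, map_zero] at h3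
    exact h2 h3
  refine ⟨hne, le_antisymm (hm _ hne) ?_⟩
  let L : Dual K U →ₗ[K] Dual K U :=
    { toFun := fun ψ => ψ - (c / φ v * ψ u) • φ
      map_add' := by
        intro a b
        rw [LinearMap.add_apply, mul_add, add_smul]
        abel
      map_smul' := by
        intro t a
        rw [LinearMap.smul_apply, smul_eq_mul, RingHom.id_apply, smul_sub, smul_smul]
        congr 2
        ring }
  have hL : Function.Injective L := by
    rw [injective_iff_map_eq_zero]
    intro ψ hψ
    have h3 : ψ - (c / φ v * ψ u) • φ = 0 := hψ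
    have h4 := congrArg (fun f : Dual K U => f u) h3
    simp only [LinearMap.sub_apply, LinearMap.smul_apply, hP.ker _ _ h1, smul_zero, sub_zero,
      LinearMap.zero_apply] at h4
    rw [h4, mul_zero, zero_smul, sub_zero] at h3
    exact h3
  have h3 : (Phi hP v).map L ≤ Phi hP (v + c • u) := by
    rintro _ ⟨ψ, hψ, rfl⟩
    exact phi_mem_line hP h1 h2 c hψ
  have h4 := Submodule.finrank_mono h3
  rw [← (Submodule.equivMapOfInjective L hL (Phi hP v)).finrank_eq, hv.2] at h4
  exact h4

include hm in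
theorem XX_conj (g : G) {u : U} (hu : XX hP m u) : XX hP m (r g u) := by
  have hne : r g u ≠ 0 := by
    intro h0
    apply hu.1
    rw [← r_inv r g u, h0, map_zero]
  refine ⟨hne, le_antisymm (hm _ hne) ?_⟩
  let L : Dual K U →ₗ[K] Dual K U := (r g⁻¹).dualMap
  have hL : Function.Injective L := by
    rw [injective_iff_map_eq_zero]
    intro ψ hψ
    ext v
    have h1 := congrArg (fun f : Dual K U => f (r g v)) hψ
    change ψ (r g⁻¹ (r g v)) = 0 at h1
    rw [r_inv] at h1
    exact h1
  have h3 : (Phi hP u).map L ≤ Phi hP (r g u) := by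
    rintro _ ⟨ψ, hψ, rfl⟩
    exact hP.conj g _ _ hψ
  have h4 := Submodule.finrank_mono h3
  rw [← (Submodule.equivMapOfInjective L hL (Phi hP u)).finrank_eq, hu.2] at h4
  exact h4

theorem XX_smul {u : U} (hu : XX hP m u) {c : K} (hc : c ≠ 0) : XX hP m (c • u) := by
  refine ⟨smul_ne_zero hc hu.1, ?_⟩
  rw [← hu.2]
  have h0 : Phi hP (c • u) = Phi hP u := by
    ext φ
    rw [mem_Phi, mem_Phi]
    constructor
    · intro h
      have h1 := hP.smulu c⁻¹ _ _ h
      rwa [smul_smul, inv_mul_cancel₀ hc, one_smul] at h1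
    · intro h
      exact hP.smulu c _ _ h
  rw [h0]

include hP in
theorem adj_conj (g : G) {u v : U} (h : Adj P u v) : Adj P (r g u) (r g v) := by
  obtain ⟨φ, h1, h2⟩ := h
  refine ⟨φ.comp (r g⁻¹), hP.conj g _ _ h1, ?_⟩
  rw [LinearMap.comp_apply, r_inv]
  exact h2

variable (hirr : Irr r) (hm1 : 1 ≤ m) (hx : ∃ u, XX hP m u)

include hm hirr hx in
theorem span_XX : Submodule.span K {u | XX hP m u} = ⊤ := by
  rcases hirr ⊤ inferInstance (Submodule.span K {u | XX hP m u}) (by
    intro s _ u hu
    induction hu using Submodule.span_induction with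
    | mem u hu => exact Submodule.subset_span (XX_conj hP hm s hu)
    | zero => rw [map_zero]; exact Submodule.zero_mem _
    | add a b _ _ ha hb => rw [map_add]; exact Submodule.add_mem _ ha hb
    | smul c a _ ha => rw [map_smul]; exact Submodule.smul_mem _ _ ha) with h | h
  · exfalso
    obtain ⟨u, hu⟩ := hx
    have h1 : u ∈ Submodule.span K {u | XX hP m u} := Submodule.subset_span hu
    rw [h, Submodule.mem_bot] at h1
    exact hu.1 h1
  · exact h

include hm hirr hx in
theorem exists_ne {φ : Dual K U} (hφ : φ ≠ 0) : ∃ v, XX hP m v ∧ φ v ≠ 0 := by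
  by_contra hcon
  push Not at hcon
  apply hφ
  have h1 : (⊤ : Submodule K U) ≤ LinearMap.ker φ := by
    rw [← span_XX hP hm hirr hx, Submodule.span_le]
    intro v hv
    exact hcon v hv
  ext v
  exact h1 (Submodule.mem_top : v ∈ ⊤)

include hm1 in
theorem exists_phi {u : U} (hu : XX hP m u) : ∃ φ, P u φ ∧ φ ≠ 0 := by
  have h1 : Phi hP u ≠ ⊥ := by
    intro h
    have h2 := hu.2
    rw [h, finrank_bot] at h2
    omega
  obtain ⟨φ, h2, h3⟩ := Submodule.exists_mem_ne_zero_of_ne_bot h1
  exact ⟨φ, h2, h3⟩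

include hm hirr hm1 in
theorem exists_nbr {u : U} (hu : XX hP m u) : ∃ v, XX hP m v ∧ Adj P u v := by
  obtain ⟨φ, h2, h3⟩ := exists_phi hP hm1 hu
  obtain ⟨v, h4, h5⟩ := exists_ne hP hm hirr ⟨u, hu⟩ h3
  exact ⟨v, h4, φ, h2, h5⟩

include hm in
theorem three_step {x0 x1 x2 x3 : U} (h1 : XX hP m x1) (h2 : XX hP m x2) (h3 : XX hP m x3)
    (a01 : Adj P x0 x1) (a12 : Adj P x1 x2) (a23 : Adj P x2 x3) :
    ∃ y, XX hP m y ∧ Adj P x0 y ∧ Adj P y x3 := by
  obtain ⟨φ, p1, p2⟩ := a01
  obtain ⟨ψ, q1, q2⟩ := adj_symm hP hm h2 h3 a23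
  obtain ⟨c, hc, hc'⟩ := exists_scalar (Finset.univ : Finset (Fin 2)) ![φ x1, ψ x1] ![φ x2, ψ x2]
    (by
      intro i _
      fin_cases i
      · left; exact p2
      · right; exact q2)
  have hy : XX hP m (x1 + c • x2) := line hP hm h1 (adj_symm hP hm h1 h2 a12) c
  refine ⟨x1 + c • x2, hy, ⟨φ, p1, ?_⟩, adj_symm hP hm h3 hy ⟨ψ, q1, ?_⟩⟩
  · have h4 := hc' 0 (Finset.mem_univ _)
    rw [map_add, map_smul, smul_eq_mul]
    exact h4
  · have h4 := hc' 1 (Finset.mem_univ _)
    rw [map_add, map_smul, smul_eq_mul]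
    exact h4

/-- The relation of being joined by a path of length two. -/
def Rel (hP : Sys r P) (m : ℕ) (a b : U) : Prop := ∃ c, XX hP m c ∧ Adj P a c ∧ Adj P c b

include hm hirr hm1 in
theorem rel_refl {a : U} (ha : XX hP m a) : Rel hP m a a := by
  obtain ⟨v, h1, h2⟩ := exists_nbr hP hm hirr hm1 ha
  exact ⟨v, h1, h2, adj_symm hP hm ha h1 h2⟩

include hm in
theorem rel_symm {a b : U} (ha : XX hP m a) (hb : XX hP m b) (h : Rel hP m a b) :
    Rel hP m b a := by
  obtain ⟨c, h1, h2, h3⟩ := h
  exact ⟨c, h1, adj_symm hP hm h1 hb h3, adj_symm hP hm ha h1 h2⟩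

include hm in
theorem rel_trans {a b d : U} (hb : XX hP m b) (hd : XX hP m d) (h : Rel hP m a b)
    (h' : Rel hP m b d) : Rel hP m a d := by
  obtain ⟨c, h1, h2, h3⟩ := h
  obtain ⟨e, h4, h5, h6⟩ := h'
  obtain ⟨y, h7, h8, h9⟩ := three_step hP hm h1 hb h4 h2 h3 h5
  exact three_step hP hm h7 h4 hd h8 h9 h6

include hm in
theorem rel_conj (g : G) {a b : U} (h : Rel hP m a b) : Rel hP m (r g a) (r g b) := by
  obtain ⟨c, h1, h2, h3⟩ := h
  exact ⟨r g c, XX_conj hP hm g h1, adj_conj hP g h2, adj_conj hP g h3⟩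

include hm hirr hm1 in
/-- Any two vectors are joined by a path of length two. -/
theorem conn {a b : U} (ha : XX hP m a) (hb : XX hP m b) : Rel hP m a b := by
  classical
  let S : Setoid {u // XX hP m u} :=
    { r := fun x y => Rel hP m x.1 y.1
      iseqv :=
        { refl := fun x => rel_refl hP hm hirr hm1 x.2
          symm := fun {x y} h => rel_symm hP hm x.2 y.2 h
          trans := fun {x y z} h h' => rel_trans hP hm y.2 z.2 h h' } }
  -- finiteness of the set of classes
  have hli : LinearIndependent K (fun q : Quotient S => (q.out : {u // XX hP m u}).1) := by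
    rw [linearIndependent_iff']
    intro s g hg q hq
    obtain ⟨c, hc, hcq⟩ := exists_nbr hP hm hirr hm1 q.out.2
    obtain ⟨φ, h1, h2⟩ := adj_symm hP hm q.out.2 hc hcq
    have h3 := congrArg φ hg
    rw [map_sum, map_zero, Finset.sum_eq_single q] at h3
    · rw [map_smul, smul_eq_mul] at h3
      exact (mul_eq_zero.1 h3).resolve_right h2
    · intro q' _ hq'
      rw [map_smul, smul_eq_mul]
      have h4 : φ (q'.out : {u // XX hP m u}).1 = 0 := by
        by_contra h5
        apply hq'
        have h6 : Rel hP m q'.out.1 q.out.1 :=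
          ⟨c, hc, adj_symm hP hm hc q'.out.2 ⟨φ, h1, h5⟩, ⟨φ, h1, h2⟩⟩
        rw [← Quotient.out_eq q', ← Quotient.out_eq q]
        exact Quotient.sound h6
      rw [h4, mul_zero]
    · intro h5
      exact absurd hq h5
  have hfin : Finite (Quotient S) := hli.finite
  let Δ : Subgroup G :=
    { carrier := {g | Rel hP m a (r g a)}
      one_mem' := by
        change Rel hP m a (r 1 a)
        rw [map_one]
        exact rel_refl hP hm hirr hm1 ha
      mul_mem' := by
        intro g h hg hh
        change Rel hP m a (r (g * h) a)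
        rw [r_mul]
        exact rel_trans hP hm (XX_conj hP hm g ha) (XX_conj hP hm g (XX_conj hP hm h ha)) hg
          (rel_conj hP hm g hh)
      inv_mem' := by
        intro g hg
        change Rel hP m a (r g⁻¹ a)
        have h1 := rel_conj hP hm g⁻¹ (show Rel hP m a (r g a) from hg)
        rw [r_inv] at h1
        exact rel_symm hP hm (XX_conj hP hm g⁻¹ ha) ha h1 }
  have hΔ : Δ.FiniteIndex := by
    let f : G → Quotient S := fun g => ⟦⟨r g a, XX_conj hP hm g ha⟩⟧
    have hf : ∀ g h, f g = f h → g⁻¹ * h ∈ Δ := by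
      intro g h hgh
      have h1 : Rel hP m (r g a) (r h a) := Quotient.exact hgh
      have h2 := rel_conj hP hm g⁻¹ h1
      rw [r_inv, ← r_mul] at h2
      exact h2
    have hinj : Function.Injective (fun q : G ⧸ Δ => f q.out) := by
      intro q q' h
      rw [← QuotientGroup.out_eq' q, ← QuotientGroup.out_eq' q']
      exact QuotientGroup.eq.2 (hf _ _ h)
    have _ : Finite (G ⧸ Δ) := Finite.of_injective _ hinj
    exact Subgroup.finiteIndex_of_finite_quotient
  have hspan : Submodule.span K {u | XX hP m u ∧ Rel hP m a u} = ⊤ := by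
    rcases hirr Δ hΔ (Submodule.span K {u | XX hP m u ∧ Rel hP m a u}) (by
      intro s hs u hu
      induction hu using Submodule.span_induction with
      | mem u hu =>
        refine Submodule.subset_span ⟨XX_conj hP hm s hu.1, ?_⟩
        exact rel_trans hP hm (XX_conj hP hm s ha) (XX_conj hP hm s hu.1) hs
          (rel_conj hP hm s hu.2)
      | zero => rw [map_zero]; exact Submodule.zero_mem _
      | add a b _ _ ha hb => rw [map_add]; exact Submodule.add_mem _ ha hb
      | smul c a _ ha => rw [map_smul]; exact Submodule.smul_mem _ _ ha) with h | h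
    · exfalso
      have h1 : a ∈ Submodule.span K {u | XX hP m u ∧ Rel hP m a u} :=
        Submodule.subset_span ⟨ha, rel_refl hP hm hirr hm1 ha⟩
      rw [h, Submodule.mem_bot] at h1
      exact ha.1 h1
    · exact h
  by_contra hcon
  obtain ⟨φ, h1, h2⟩ := exists_phi hP hm1 hb
  apply h2
  have h3 : (⊤ : Submodule K U) ≤ LinearMap.ker φ := by
    rw [← hspan, Submodule.span_le]
    rintro v ⟨hv, hav⟩
    rw [SetLike.mem_coe, LinearMap.mem_ker]
    by_contra h4
    apply hcon
    obtain ⟨y, h5, h6, h7⟩ := hav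
    have hvb : Adj P v b := adj_symm hP hm hb hv ⟨φ, h1, h4⟩
    exact three_step hP hm h5 hv hb h6 h7 hvb
  ext v
  exact h3 (Submodule.mem_top : v ∈ ⊤)

include hm hirr hm1 in
/-- A vector outside finitely many hyperplanes. -/
theorem generic {ι : Type*} (s : Finset ι) (h : ι → Dual K U) (hx : ∃ u, XX hP m u)
    (hs : ∀ i ∈ s, h i ≠ 0) : ∃ c, XX hP m c ∧ ∀ i ∈ s, h i c ≠ 0 := by
  classical
  induction s using Finset.induction_on with
  | empty =>
    obtain ⟨u, hu⟩ := hx
    exact ⟨u, hu, fun i hi => absurd hi (Finset.notMem_empty i)⟩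
  | insert j s hj ih =>
    obtain ⟨c, hc, hcs⟩ := ih (fun i hi => hs i (Finset.mem_insert_of_mem hi))
    obtain ⟨d, hd, hdj⟩ := exists_ne hP hm hirr hx (hs j (Finset.mem_insert_self _ _))
    obtain ⟨w, hw, hcw, hwd⟩ := conn hP hm hirr hm1 hc hd
    obtain ⟨ψ, p1, p2⟩ := adj_symm hP hm hw hd hwd
    obtain ⟨t, -, ht⟩ := exists_scalar (insert none (s.image some))
      (fun o : Option ι => o.elim (ψ c) (fun i => h i c))
      (fun o : Option ι => o.elim (ψ w) (fun i => h i w)) (by
        intro o ho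
        rw [Finset.mem_insert, Finset.mem_image] at ho
        rcases ho with rfl | ⟨i, hi, rfl⟩
        · right; exact p2
        · left; exact hcs i hi)
    have hy : XX hP m (c + t • w) := line hP hm hc (adj_symm hP hm hc hw hcw) t
    have hyd : Adj P d (c + t • w) := by
      refine ⟨ψ, p1, ?_⟩
      have h4 := ht none (Finset.mem_insert_self _ _)
      rw [map_add, map_smul, smul_eq_mul]
      exact h4
    obtain ⟨t', -, ht'⟩ := exists_scalar (insert j s) (fun i => h i (c + t • w))
      (fun i => h i d) (by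
        intro i hi
        rw [Finset.mem_insert] at hi
        rcases hi with rfl | hi
        · right; exact hdj
        · left
          have h4 := ht (some i) (Finset.mem_insert_of_mem (Finset.mem_image_of_mem _ hi))
          rw [map_add, map_smul, smul_eq_mul]
          exact h4)
    refine ⟨c + t • w + t' • d, line hP hm hy hyd t', fun i hi => ?_⟩
    rw [map_add, map_smul, smul_eq_mul]
    exact ht' i hi

end

end Pool.Agent.W522.U
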