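import Mathlib
import Pool.Agent.H86.CMLib.W522.U.S1

/-!
# Irreducible families of rank one nilpotent operators: the two cases
-/

set_option linter.unusedSectionVars false

namespace Pool.Agent.W522.U

open Module

noncomputable section

variable {K U G : Type*} [Field K] [CharZero K] [AddCommGroup U] [Module K U]
  [FiniteDimensional K U] [Group G] {r : Representation K G U} {P : U → Dual K U → Prop}
  (hP : Sys r P) {m : ℕ} (hm : ∀ u : U, u ≠ 0 → finrank K (Phi hP u) ≤ m)
  (hirr : Irr r) (hm1 : 1 ≤ m)

include hP in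
theorem sub_smul_mem {u : U} {φ ψ : Dual K U} (c : K) (h : P u φ) (h' : P u ψ) :
    P u (φ - c • ψ) := (Phi hP u).sub_mem h ((Phi hP u).smul_mem c h')

/-- A functional that vanishes at `u` but not at `v`. -/
theorem exists_sep {u v : U} (h : v ∉ Submodule.span K {u}) :
    ∃ φ : Dual K U, φ u = 0 ∧ φ v ≠ 0 := by
  obtain ⟨f, h1, h2⟩ := Submodule.exists_dual_map_eq_bot_of_notMem h inferInstance
  refine ⟨f, ?_, h1⟩
  have h3 : f u ∈ (Submodule.span K {u}).map f :=
    Submodule.mem_map_of_mem (Submodule.mem_span_singleton_self u)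
  rwa [h2, Submodule.mem_bot] at h3

include hm in
/-- Two neighbours `c`, `d` of `a`. -/
theorem two_nbrs {a c d : U} (ha : XX hP m a) (hc : XX hP m c) (hd : XX hP m d)
    (hac : Adj P a c) {φ : Dual K U} (h1 : P a φ)
    (h2 : φ c = 0) (h3 : φ d ≠ 0) : Phi hP d ≤ Phi hP a ⊔ Phi hP c := by
  intro η hη
  obtain ⟨κ, k1, k2⟩ := adj_symm hP hm ha hc hac
  have h4 : P c φ := inter hP k1 k2 h1 h2
  have hcd : Adj P c d := ⟨φ, h4, h3⟩
  obtain ⟨γ, g1, g2⟩ := adj_symm hP hm hc hd hcd
  have h5 : φ a = 0 := hP.ker _ _ h1
  let κ' := κ - (κ d / φ d) • φ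
  have h6 : P c κ' := sub_smul_mem hP _ k1 h4
  have h7 : κ' d = 0 := by
    simp only [κ', LinearMap.sub_apply, LinearMap.smul_apply, smul_eq_mul]
    field_simp
    ring
  have h8 : κ' a ≠ 0 := by
    simp only [κ', LinearMap.sub_apply, LinearMap.smul_apply, smul_eq_mul, h5, mul_zero, sub_zero]
    exact k2
  have h9 : P d κ' := inter hP g1 g2 h6 h7
  let ψ := η - (η a / κ' a) • κ'
  have h10 : P d ψ := sub_smul_mem hP _ hη h9
  have h11 : ψ a = 0 := by
    simp only [ψ, LinearMap.sub_apply, LinearMap.smul_apply, smul_eq_mul]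
    field_simp
    ring
  have h12 : P a ψ := inter hP h1 h3 h10 h11
  have h13 : η = ψ + (η a / κ' a) • κ' := by
    simp only [ψ]
    abel
  rw [h13]
  exact Submodule.add_mem_sup h12 (hP.smul _ _ _ h6)

include hm hirr hm1 in
/-- The case of large spaces `Phi`. -/
theorem case_large (hm2 : 2 ≤ m) {a : U} (ha : XX hP m a)
    {φ : Dual K U} (hφ : φ a = 0) : P a φ := by
  -- a second neighbour
  have hdim : 2 ≤ finrank K (Phi hP a) := by rw [ha.2]; exact hm2
  have key : ∀ a, XX hP m a → ∀ c d, XX hP m c → XX hP m d → Adj P a c →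
      Adj P a d → Phi hP d ≤ Phi hP a ⊔ Phi hP c := by
    intro a ha c d hc hd hac had
    by_cases h : ∃ φ, P a φ ∧ φ c = 0 ∧ φ d ≠ 0
    · obtain ⟨φ, h1, h2, h3⟩ := h
      exact two_nbrs hP hm ha hc hd hac h1 h2 h3
    · push Not at h
      -- an element of `Phi a` that vanishes at `c`
      obtain ⟨φ, h1, h2, h3⟩ : ∃ φ, P a φ ∧ φ c = 0 ∧ φ ≠ 0 := by
        by_contra hcon
        push Not at hcon
        let ev : Phi hP a →ₗ[K] K := ((Module.Dual.eval K U c)).comp (Phi hP a).subtype
        have h4 : Function.Injective ev := by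
          rw [injective_iff_map_eq_zero]
          intro ψ hψ
          exact Subtype.ext (hcon ψ.1 ψ.2 hψ)
        have h5 := LinearMap.finrank_le_finrank_of_injective h4
        rw [finrank_self, ha.2] at h5
        omega
      obtain ⟨x, hx1, hx2⟩ := exists_ne hP hm hirr ⟨a, ha⟩ h3
      have hax : Adj P a x := ⟨φ, h1, hx2⟩
      have h4 := two_nbrs hP hm ha hc hx1 hac h1 h2 hx2
      -- an element that vanishes at `x` and not at `d`
      obtain ⟨ψ, p1, p2⟩ := had
      have hd0 : φ d = 0 := h φ h1 h2
      let ψ' := ψ - (ψ x / φ x) • φ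
      have h5 : P a ψ' := sub_smul_mem hP _ p1 h1
      have h6 : ψ' x = 0 := by
        simp only [ψ', LinearMap.sub_apply, LinearMap.smul_apply, smul_eq_mul]
        field_simp
        ring
      have h7 : ψ' d ≠ 0 := by
        simp only [ψ', LinearMap.sub_apply, LinearMap.smul_apply, smul_eq_mul, hd0, mul_zero,
          sub_zero]
        exact p2
      have h8 := two_nbrs hP hm ha hx1 hd hax h5 h6 h7
      exact h8.trans (sup_le le_sup_left h4)
  obtain ⟨c, hc, hac⟩ := exists_nbr hP hm hirr hm1 ha
  have hall : ∀ d, XX hP m d → Phi hP d ≤ Phi hP a ⊔ Phi hP c := by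
    intro d hd
    obtain ⟨x, hx1, hax, hxd⟩ := conn hP hm hirr hm1 ha hd
    have h1 := key x hx1 a d ha hd (adj_symm hP hm ha hx1 hax) hxd
    exact h1.trans (sup_le (key a ha c x hc hx1 hac hax) le_sup_left)
  -- the sum is everything
  have htop : Phi hP a ⊔ Phi hP c = ⊤ := by
    by_contra hne
    -- a vector killed by the sum
    obtain ⟨x, hx0, hx1⟩ : ∃ x : U, x ≠ 0 ∧ ∀ φ ∈ Phi hP a ⊔ Phi hP c, φ x = 0 := by
      have h1 : (Phi hP a ⊔ Phi hP c).dualCoannihilator ≠ ⊥ := by
        intro h2
        apply hne
        rw [← Subspace.dualCoannihilator_dualAnnihilator_eq (W := Phi hP a ⊔ Phi hP c), h2,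
          Submodule.dualAnnihilator_bot]
      obtain ⟨x, h2, h3⟩ := Submodule.exists_mem_ne_zero_of_ne_bot h1
      refine ⟨x, h3, fun φ hφ => ?_⟩
      exact (Submodule.mem_dualCoannihilator x).1 h2 φ hφ
    let W : Submodule K U :=
      { carrier := {v | ∀ d φ, XX hP m d → P d φ → φ v = 0}
        zero_mem' := fun d φ _ _ => map_zero φ
        add_mem' := by
          intro v w hv hw d φ hd hφ
          rw [map_add, hv d φ hd hφ, hw d φ hd hφ, add_zero]
        smul_mem' := by
          intro t v hv d φ hd hφ
          rw [map_smul, hv d φ hd hφ, smul_zero] }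
    rcases hirr ⊤ inferInstance W (by
      intro s _ u hu d φ hd hφ
      have h1 := hu (r s⁻¹ d) (φ.comp (r s⁻¹⁻¹)) (XX_conj hP hm s⁻¹ hd) (hP.conj s⁻¹ _ _ hφ)
      rwa [LinearMap.comp_apply, inv_inv] at h1) with h | h
    · apply hx0
      have h1 : x ∈ W := fun d φ hd hφ => hx1 φ (hall d hd hφ)
      rwa [h, Submodule.mem_bot] at h1
    · obtain ⟨φ, h1, h2⟩ := exists_phi hP hm1 ha
      apply h2
      ext v
      have h3 : v ∈ W := by rw [h]; trivial
      exact h3 a φ ha h1
  obtain ⟨κ, k1, k2⟩ := adj_symm hP hm ha hc hac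
  obtain ⟨γ, g1, g2⟩ := hac
  have h1 : Phi hP c ≤ Phi hP a ⊔ Submodule.span K {κ} := by
    intro η hη
    have h2 : P c (η - (η a / κ a) • κ) := sub_smul_mem hP _ hη k1
    have h3 : (η - (η a / κ a) • κ) a = 0 := by
      simp only [LinearMap.sub_apply, LinearMap.smul_apply, smul_eq_mul]
      field_simp
      ring
    have h4 : P a (η - (η a / κ a) • κ) := inter hP g1 g2 h2 h3
    have h5 : η = (η - (η a / κ a) • κ) + (η a / κ a) • κ := by abel
    rw [h5]
    exact Submodule.add_mem_sup h4 (Submodule.smul_mem _ _ (Submodule.mem_span_singleton_self κ))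
  have h2 : φ ∈ Phi hP a ⊔ Submodule.span K {κ} := by
    have h3 : φ ∈ Phi hP a ⊔ Phi hP c := by rw [htop]; trivial
    exact (sup_le le_sup_left h1) h3
  obtain ⟨φ', h3, y, h4, h5⟩ := Submodule.mem_sup.1 h2
  obtain ⟨t, rfl⟩ := Submodule.mem_span_singleton.1 h4
  have h6 := congrArg (fun f : Dual K U => f a) h5
  simp only [LinearMap.add_apply, LinearMap.smul_apply, smul_eq_mul, hφ, hP.ker _ _ h3,
    zero_add] at h6
  have h7 : t = 0 := (mul_eq_zero.1 h6).resolve_right k2
  rw [h7, zero_smul, add_zero] at h5
  rw [← h5]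
  exact h3

include hm hirr hm1 in
theorem large_all (hm2 : 2 ≤ m) (hx : ∃ u, XX hP m u) :
    2 < finrank K U ∧ ∀ u (φ : Dual K U), φ u = 0 → P u φ := by
  have hcl : ∀ a, XX hP m a → ∀ φ : Dual K U, φ a = 0 → P a φ :=
    fun a ha φ hφ => case_large hP hm hirr hm1 hm2 ha hφ
  constructor
  · obtain ⟨a, ha⟩ := hx
    obtain ⟨c, hc, hac⟩ := exists_nbr hP hm hirr hm1 ha
    obtain ⟨κ, k1, k2⟩ := adj_symm hP hm ha hc hac
    have h1 : Phi hP a < ⊤ := by
      refine lt_of_le_of_ne le_top fun h => k2 ?_
      have h2 : κ ∈ Phi hP a := by rw [h]; trivial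
      exact hP.ker _ _ h2
    have h2 := Submodule.finrank_lt_finrank_of_lt h1
    rw [finrank_top, ha.2, Subspace.dual_finrank_eq] at h2
    omega
  · let W : Submodule K U :=
      { carrier := {u | u = 0 ∨ XX hP m u}
        zero_mem' := Or.inl rfl
        add_mem' := by
          intro a b ha hb
          rcases ha with rfl | ha
          · rw [zero_add]; exact hb
          rcases hb with rfl | hb
          · rw [add_zero]; exact Or.inr ha
          by_cases h : b ∈ Submodule.span K {a}
          · obtain ⟨t, rfl⟩ := Submodule.mem_span_singleton.1 h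
            by_cases ht : 1 + t = 0
            · left
              have h1 : a + t • a = (1 + t) • a := by rw [add_smul, one_smul]
              rw [h1, ht, zero_smul]
            · right
              have h1 : a + t • a = (1 + t) • a := by rw [add_smul, one_smul]
              rw [h1]
              exact XX_smul hP ha ht
          · right
            obtain ⟨φ, h1, h2⟩ := exists_sep h
            have h3 := line hP hm hb ⟨φ, hcl a ha φ h1, h2⟩ 1
            rwa [one_smul, add_comm] at h3
        smul_mem' := by
          intro c a ha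
          rcases ha with rfl | ha
          · left; rw [smul_zero]
          · by_cases hc : c = 0
            · left; rw [hc, zero_smul]
            · right; exact XX_smul hP ha hc }
    rcases hirr ⊤ inferInstance W (by
      intro s _ u hu
      rcases hu with rfl | hu
      · left; rw [map_zero]
      · right; exact XX_conj hP hm s hu) with h | h
    · exfalso
      obtain ⟨a, ha⟩ := hx
      have h1 : a ∈ W := Or.inr ha
      rw [h, Submodule.mem_bot] at h1
      exact ha.1 h1
    · intro u φ hφ
      have h1 : u ∈ W := by rw [h]; trivial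
      rcases h1 with rfl | h1
      · obtain ⟨a, ha⟩ := hx
        -- a vector on which `φ` vanishes
        by_cases h0 : φ = 0
        · rw [h0]; exact hP.zero 0
        · by_cases h3 : ∃ v, XX hP m v ∧ φ v = 0
          · obtain ⟨v, h4, h5⟩ := h3
            have h6 := hP.smulu 0 v φ (hcl v h4 φ h5)
            rwa [zero_smul] at h6
          · push Not at h3
            exfalso
            -- then the kernel of `φ` is trivial, so `dim U ≤ 1`
            have h4 : Function.Injective φ := by
              rw [injective_iff_map_eq_zero]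
              intro v hv
              by_contra hv0
              have h5 : v ∈ W := by rw [h]; trivial
              rcases h5 with h5 | h5
              · exact hv0 h5
              · exact h3 v h5 hv
            have h5 := LinearMap.finrank_le_finrank_of_injective h4
            rw [finrank_self] at h5
            obtain ⟨c, hc, hac⟩ := exists_nbr hP hm hirr hm1 ha
            obtain ⟨κ, k1, k2⟩ := adj_symm hP hm ha hc hac
            have h6 : Phi hP a < ⊤ := by
              refine lt_of_le_of_ne le_top fun h => k2 ?_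
              have h2 : κ ∈ Phi hP a := by rw [h]; trivial
              exact hP.ker _ _ h2
            have h7 := Submodule.finrank_lt_finrank_of_lt h6
            rw [finrank_top, ha.2, Subspace.dual_finrank_eq] at h7
            omega
      · exact hcl u h1 φ hφ

end

end Pool.Agent.W522.U
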