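import Mathlib
import Pool.Agent.H86.CMLib.W522.U.S2

/-!
# Irreducible families of rank one nilpotent operators: the symplectic case, main theorem
-/

set_option linter.unusedSectionVars false

namespace Pool.Agent.W522.U

open Module

noncomputable section

theorem prop_const {K U W : Type*} [Field K] [AddCommGroup U] [Module K U] [AddCommGroup W]
    [Module K W] (A B : U →ₗ[K] W) (hA : Function.Injective A)
    (h : ∀ u, ∃ c : K, B u = c • A u) : ∃ c : K, ∀ u, B u = c • A u := by
  by_cases h0 : ∃ u : U, u ≠ 0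
  · obtain ⟨u0, hu0⟩ := h0
    obtain ⟨c0, hc0⟩ := h u0
    refine ⟨c0, fun v => ?_⟩
    by_cases hv : v ∈ Submodule.span K {u0}
    · obtain ⟨t, rfl⟩ := Submodule.mem_span_singleton.1 hv
      rw [map_smul, map_smul, hc0, smul_comm]
    · obtain ⟨c, hc⟩ := h v
      obtain ⟨d, hd⟩ := h (u0 + v)
      rw [map_add, hc0, hc, ← map_smul, ← map_smul, ← map_smul, ← map_add] at hd
      have h1 := hA hd
      have h2 : (c - d) • v = (d - c0) • u0 := by
        rw [sub_smul, sub_smul, sub_eq_sub_iff_add_eq_add, ← smul_add, ← h1, add_comm]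
      have h3 : c = d := by
        by_contra h4
        apply hv
        rw [Submodule.mem_span_singleton]
        refine ⟨(c - d)⁻¹ * (d - c0), ?_⟩
        rw [← smul_smul, ← h2, smul_smul, inv_mul_cancel₀ (sub_ne_zero.2 h4), one_smul]
      rw [h3, sub_self, zero_smul] at h2
      have h4 : d - c0 = 0 := by
        by_contra h5
        exact (smul_ne_zero h5 hu0) h2.symm
      rw [hc, h3, sub_eq_zero.1 h4]
  · push Not at h0
    refine ⟨0, fun u => ?_⟩
    rw [h0 u, map_zero, map_zero, smul_zero]

variable {K U G : Type*} [Field K] [CharZero K] [AddCommGroup U] [Module K U]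
  [FiniteDimensional K U] [Group G] {r : Representation K G U} {P : U → Dual K U → Prop}
  (hP : Sys r P)

theorem gen {a : U} (ha : XX hP 1 a) {φ ψ : Dual K U} (h : P a φ) (h0 : φ ≠ 0) (h' : P a ψ) :
    ∃ c : K, ψ = c • φ := by
  let x : Phi hP a := ⟨φ, h⟩
  have h1 : x ≠ 0 := fun h2 => h0 (congrArg Subtype.val h2)
  obtain ⟨c, hc⟩ := (finrank_eq_one_iff_of_nonzero' x h1).1 ha.2 ⟨ψ, h'⟩
  exact ⟨c, (congrArg Subtype.val hc).symm⟩

variable (hm : ∀ u : U, u ≠ 0 → finrank K (Phi hP u) ≤ 1) (hirr : Irr r)

include hm hirr in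
theorem sep_zero {m : ℕ} (hm : ∀ u : U, u ≠ 0 → finrank K (Phi hP u) ≤ m) (hm1 : 1 ≤ m)
    (hx : ∃ u, XX hP m u) {x : U}
    (h : ∀ d φ, XX hP m d → P d φ → φ x = 0) : x = 0 := by
  let W : Submodule K U :=
    { carrier := {v | ∀ d φ, XX hP m d → P d φ → φ v = 0}
      zero_mem' := fun d φ _ _ => map_zero φ
      add_mem' := by
        intro v w hv hw d φ hd hφ
        rw [map_add, hv d φ hd hφ, hw d φ hd hφ, add_zero]
      smul_mem' := by
        intro t v hv d φ hd hφ
        rw [map_smul, hv d φ hd hφ, smul_zero] }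
  have hxW : x ∈ W := h
  rcases hirr ⊤ inferInstance W (by
    intro s _ u hu d φ hd hφ
    have h1 := hu (r s⁻¹ d) (φ.comp (r s⁻¹⁻¹)) (XX_conj hP hm s⁻¹ hd) (hP.conj s⁻¹ _ _ hφ)
    rwa [LinearMap.comp_apply, inv_inv] at h1) with h | h
  · rwa [h, Submodule.mem_bot] at hxW
  · exfalso
    obtain ⟨a, ha⟩ := hx
    obtain ⟨φ, h1, h2⟩ := exists_phi hP hm1 ha
    apply h2
    ext v
    have h3 : v ∈ W := by rw [h]; trivial
    exact h3 a φ ha h1

include hm hirr in
/-- The symplectic case. -/
theorem case_one (hx : ∃ u, XX hP 1 u) : ∃ (β : U →ₗ[K] Dual K U) (ψ : G → K),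
    (∀ u, β u u = 0) ∧ Function.Injective β ∧ (∀ u, P u (β u)) ∧
    ∀ g u v, β (r g u) (r g v) = ψ g * β u v := by
  classical
  obtain ⟨a, ha⟩ := hx
  have hx : ∃ u, XX hP 1 u := ⟨a, ha⟩
  obtain ⟨φa, ha1, ha2⟩ := exists_phi hP le_rfl ha
  have hφaa : φa a = 0 := hP.ker _ _ ha1
  have hadj : ∀ b, Adj P a b → φa b ≠ 0 := by
    rintro b ⟨φ, h1, h2⟩ h3
    obtain ⟨c, rfl⟩ := gen hP ha ha1 ha2 h1
    rw [LinearMap.smul_apply, h3, smul_zero] at h2
    exact h2 rfl
  have hF : ∀ b, ∃ f : Dual K U, XX hP 1 b → φa b ≠ 0 → P b f ∧ f a = -φa b := by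
    intro b
    by_cases hb : XX hP 1 b ∧ φa b ≠ 0
    · obtain ⟨ψ, h1, h2⟩ := adj_symm hP hm ha hb.1 ⟨φa, ha1, hb.2⟩
      refine ⟨(-φa b / ψ a) • ψ, fun _ _ => ⟨hP.smul _ _ _ h1, ?_⟩⟩
      rw [LinearMap.smul_apply, smul_eq_mul, div_mul_cancel₀ _ h2]
    · exact ⟨0, fun h1 h2 => absurd ⟨h1, h2⟩ hb⟩
  choose F hF using hF
  have claim1 : ∀ b c, XX hP 1 b → φa b ≠ 0 → XX hP 1 c → φa c ≠ 0 → F b c = -F c b := by
    intro b c hb hb' hc hc'
    obtain ⟨fb1, fb2⟩ := hF b hb hb'
    obtain ⟨fc1, fc2⟩ := hF c hc hc'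
    set s := -F b c / φa c with hs
    have hy : XX hP 1 (b + s • a) := line hP hm hb ⟨φa, ha1, hb'⟩ s
    have h1 := phi_mem_line hP ha1 hb' s fb1
    have h2 : F b - (s / φa b * F b a) • φa = F b + s • φa := by
      ext v
      simp only [LinearMap.sub_apply, LinearMap.add_apply, LinearMap.smul_apply, smul_eq_mul, fb2]
      field_simp
      ring
    rw [h2] at h1
    have h3 : (F b + s • φa) c = 0 := by
      rw [LinearMap.add_apply, LinearMap.smul_apply, smul_eq_mul, hs, div_mul_cancel₀ _ hc']
      ring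
    have h4 : F b + s • φa ≠ 0 := by
      intro h5
      have h6 := congrArg (fun f : Dual K U => f a) h5
      simp only [LinearMap.add_apply, LinearMap.smul_apply, hφaa, smul_zero, add_zero, fb2,
        LinearMap.zero_apply, neg_eq_zero] at h6
      exact hb' h6
    have h5 : F c (b + s • a) = 0 := by
      by_contra h6
      obtain ⟨ψ, h7, h8⟩ := adj_symm hP hm hc hy ⟨F c, fc1, h6⟩
      obtain ⟨t, rfl⟩ := gen hP hy h1 h4 h7
      rw [LinearMap.smul_apply, h3, smul_zero] at h8
      exact h8 rfl
    rw [map_add, map_smul, smul_eq_mul, fc2, hs] at h5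
    have h6 : -F b c / φa c * -φa c = F b c := by field_simp
    rw [h6] at h5
    linear_combination h5
  -- the set of neighbours of `a` spans
  set s : Set U := {b | XX hP 1 b ∧ φa b ≠ 0} with hs
  have hspan : Submodule.span K s = ⊤ := by
    rw [eq_top_iff, ← span_XX hP hm hirr hx, Submodule.span_le]
    intro b hb
    by_cases hb' : φa b = 0
    · obtain ⟨c, hc, hac, hcb⟩ := conn hP hm hirr le_rfl ha hb
      have hc' := hadj c hac
      have h1 : XX hP 1 (c + (1 : K) • b) := line hP hm hc (adj_symm hP hm hc hb hcb) 1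
      rw [one_smul] at h1
      have h2 : c + b ∈ s := by
        refine ⟨h1, ?_⟩
        rw [map_add, hb', add_zero]
        exact hc'
      have h3 : b = (c + b) - c := by abel
      rw [h3]
      exact Submodule.sub_mem _ (Submodule.subset_span h2) (Submodule.subset_span ⟨hc, hc'⟩)
    · exact Submodule.subset_span ⟨hb, hb'⟩
  obtain ⟨t, hts, htspan, hli⟩ := exists_linearIndependent K s
  have htop : ⊤ ≤ Submodule.span K (Set.range ((↑) : t → U)) := by
    rw [Subtype.range_coe, htspan, hspan]
  let bs : Basis t K U := Basis.mk hli htop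
  have hbs : ∀ i : t, bs i = i.1 := fun i => by rw [Basis.mk_apply]
  have _ : Fintype t := FiniteDimensional.fintypeBasisIndex bs
  let β : U →ₗ[K] Dual K U := bs.constr K (fun i => F i.1)
  have hβi : ∀ i : t, β i.1 = F i.1 := by
    intro i
    rw [← hbs i]
    change bs.constr K (fun i : t => F i.1) (bs i) = _
    rw [Basis.constr_basis, hbs]
  have hti : ∀ i : t, XX hP 1 i.1 ∧ φa i.1 ≠ 0 := fun i => hts i.2
  have hβF : ∀ b, XX hP 1 b → φa b ≠ 0 → β b = F b := by
    intro b hb hb'
    refine bs.ext fun j => ?_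
    rw [hbs]
    have h1 : β b = ∑ i, bs.repr b i • F i.1 := by
      conv_lhs => rw [← bs.sum_repr b]
      rw [map_sum]
      refine Finset.sum_congr rfl fun i _ => ?_
      rw [map_smul, hbs, hβi]
    rw [h1, LinearMap.sum_apply]
    have h2 : ∀ i, (bs.repr b i • F i.1) j.1 = -F j.1 (bs.repr b i • bs i) := by
      intro i
      rw [LinearMap.smul_apply, claim1 i.1 j.1 (hti i).1 (hti i).2 (hti j).1 (hti j).2, map_smul,
        hbs, smul_neg]
    rw [Finset.sum_congr rfl (fun i _ => h2 i), Finset.sum_neg_distrib, ← map_sum, bs.sum_repr,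
      claim1 b j.1 hb hb' (hti j).1 (hti j).2]
  have hskew : ∀ u v, β u v = -β v u := by
    have h1 : β = -β.flip := by
      refine bs.ext fun i => bs.ext fun j => ?_
      rw [LinearMap.neg_apply, LinearMap.neg_apply, LinearMap.flip_apply, hbs, hbs, hβi, hβi]
      exact claim1 i.1 j.1 (hti i).1 (hti i).2 (hti j).1 (hti j).2
    intro u v
    exact congrArg (fun f : U →ₗ[K] Dual K U => f u v) h1
  have halt : ∀ u, β u u = 0 := by
    intro u
    have h1 := hskew u u
    have h2 : (2 : K) * β u u = 0 := by linear_combination h1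
    exact (mul_eq_zero.1 h2).resolve_left two_ne_zero
  have claim4 : ∀ b, XX hP 1 b → P b (β b) ∧ β b ≠ 0 := by
    intro b hb
    by_cases hb' : φa b = 0
    · obtain ⟨c, hc, hac, hcb⟩ := conn hP hm hirr le_rfl ha hb
      have hc' := hadj c hac
      obtain ⟨κ, k1, k2⟩ := adj_symm hP hm hc hb hcb
      obtain ⟨fc1, fc2⟩ := hF c hc hc'
      have h1 : XX hP 1 (c + (1 : K) • b) := line hP hm hc ⟨κ, k1, k2⟩ 1
      have h2 := phi_mem_line hP k1 k2 1 fc1
      have h3 : φa (c + (1 : K) • b) ≠ 0 := by
        rw [map_add, map_smul, hb', smul_zero, add_zero]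
        exact hc'
      obtain ⟨h4, h5⟩ := hF _ h1 h3
      have h6 : F (c + (1 : K) • b) ≠ 0 := by
        intro h7
        rw [h7, LinearMap.zero_apply] at h5
        exact h3 (by linear_combination h5)
      obtain ⟨μ, hμ⟩ := gen hP h1 h4 h6 h2
      rw [← hβF _ h1 h3, ← hβF _ hc hc', map_add, map_smul, one_smul] at hμ
      have h7 : β c b ≠ 0 := by
        obtain ⟨φ, p1, p2⟩ := hcb
        have h8 : F c ≠ 0 := by
          intro h9
          rw [h9, LinearMap.zero_apply] at fc2
          exact hc' (by linear_combination fc2)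
        obtain ⟨x, rfl⟩ := gen hP hc fc1 h8 p1
        rw [hβF c hc hc']
        intro h9
        rw [LinearMap.smul_apply, h9, smul_zero] at p2
        exact p2 rfl
      have h8 := congrArg (fun f : Dual K U => f b) hμ
      simp only [LinearMap.sub_apply, LinearMap.smul_apply, LinearMap.add_apply, hP.ker _ _ k1,
        halt, add_zero, smul_eq_mul] at h8
      have h9 : μ = 1 := by
        have h10 : (μ - 1) * β c b = 0 := by linear_combination -h8
        exact sub_eq_zero.1 ((mul_eq_zero.1 h10).resolve_right h7)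
      rw [h9, one_smul] at hμ
      have h10 : β b = (-(1 / κ c * β c b)) • κ := by
        ext v
        have h11 := congrArg (fun f : Dual K U => f v) hμ
        simp only [LinearMap.sub_apply, LinearMap.smul_apply, LinearMap.add_apply,
          smul_eq_mul] at h11 ⊢
        linear_combination -h11
      refine ⟨?_, ?_⟩
      · rw [h10]
        exact hP.smul _ _ _ k1
      · rw [h10]
        refine smul_ne_zero (neg_ne_zero.2 (mul_ne_zero (one_div_ne_zero k2) h7)) ?_
        intro h11
        rw [h11] at k2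
        exact k2 rfl
    · obtain ⟨h1, h2⟩ := hF b hb hb'
      rw [hβF b hb hb']
      refine ⟨h1, fun h3 => hb' ?_⟩
      rw [h3, LinearMap.zero_apply] at h2
      linear_combination h2
  have hinj : Function.Injective β := by
    rw [injective_iff_map_eq_zero]
    intro u hu
    refine sep_zero hP hm hirr hm le_rfl hx fun d φ hd hφ => ?_
    obtain ⟨h1, h2⟩ := claim4 d hd
    obtain ⟨c, rfl⟩ := gen hP hd h1 h2 hφ
    rw [LinearMap.smul_apply, hskew, hu, LinearMap.zero_apply, neg_zero, smul_zero]
  -- all nonzero vectors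
  have hall : ∀ u, u ≠ 0 → XX hP 1 u := by
    let W : Submodule K U :=
      { carrier := {u | u = 0 ∨ XX hP 1 u}
        zero_mem' := Or.inl rfl
        add_mem' := by
          intro x y hx' hy
          rcases hx' with rfl | hx'
          · rw [zero_add]; exact hy
          rcases hy with rfl | hy
          · rw [add_zero]; exact Or.inr hx'
          by_cases hxy : x + y = 0
          · exact Or.inl hxy
          right
          by_cases h1 : β x y = 0
          · have hx0 : β x ≠ 0 := (claim4 x hx').2
            have hy0 : β y ≠ 0 := (claim4 y hy).2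
            have hxy0 : β (x + y) ≠ 0 := fun h => hxy (hinj (by rw [h, map_zero]))
            obtain ⟨c, hc, hc'⟩ := generic hP hm hirr le_rfl (Finset.univ : Finset (Fin 3))
              ![β x, β y, β (x + y)] hx (by
                intro i _
                fin_cases i
                · exact hx0
                · exact hy0
                · exact hxy0)
            have c1 : β x c ≠ 0 := hc' 0 (Finset.mem_univ _)
            have c2 : β y c ≠ 0 := hc' 1 (Finset.mem_univ _)
            have c3 : β (x + y) c ≠ 0 := hc' 2 (Finset.mem_univ _)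
            have hcP := (claim4 c hc).1
            have h2 : XX hP 1 (x + (1 : K) • c) := line hP hm hx' ⟨β c, hcP, by
              rw [hskew]
              exact neg_ne_zero.2 c1⟩ 1
            have h3 : XX hP 1 (x + (1 : K) • c + (1 : K) • y) :=
              line hP hm h2 ⟨β y, (claim4 y hy).1, by
                rw [map_add, map_smul, hskew, h1, neg_zero, zero_add, one_smul]
                exact c2⟩ 1
            have h4 : XX hP 1 (x + (1 : K) • c + (1 : K) • y + (-1 : K) • c) :=
              line hP hm h3 ⟨β c, hcP, by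
                rw [hskew]
                rw [map_add, map_add, map_smul, map_smul, one_smul, one_smul,
                  LinearMap.add_apply, LinearMap.add_apply, halt, add_zero, ← LinearMap.add_apply,
                  ← map_add]
                exact neg_ne_zero.2 c3⟩ (-1)
            have h5 : x + (1 : K) • c + (1 : K) • y + (-1 : K) • c = x + y := by
              rw [one_smul, one_smul, neg_one_smul]
              abel
            rwa [h5] at h4
          · have h2 := line hP hm hy ⟨β x, (claim4 x hx').1, h1⟩ 1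
            rwa [one_smul, add_comm] at h2
        smul_mem' := by
          intro c a ha
          rcases ha with rfl | ha
          · left; rw [smul_zero]
          · by_cases hc : c = 0
            · left; rw [hc, zero_smul]
            · right; exact XX_smul hP ha hc }
    rcases hirr ⊤ inferInstance W (by
      intro s _ u hu
      rcases hu with rfl | hu
      · left; rw [map_zero]
      · right; exact XX_conj hP hm s hu) with h | h
    · exfalso
      have h1 : a ∈ W := Or.inr ha
      rw [h, Submodule.mem_bot] at h1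
      exact ha.1 h1
    · intro u hu
      have h1 : u ∈ W := by rw [h]; trivial
      rcases h1 with h1 | h1
      · exact absurd h1 hu
      · exact h1
  -- the form is preserved up to scalars
  have hsim : ∀ g, ∃ c : K, ∀ u v, β (r g u) (r g v) = c * β u v := by
    intro g
    let B : U →ₗ[K] Dual K U := (r g).dualMap.comp (β.comp (r g))
    have h1 : ∀ u, ∃ c : K, B u = c • β u := by
      intro u
      by_cases hu : u = 0
      · refine ⟨0, ?_⟩
        rw [hu, map_zero, map_zero, smul_zero]
      · have hu1 := hall u hu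
        have h2 := hP.conj g _ _ (claim4 u hu1).1
        have h3 := claim4 (r g u) (XX_conj hP hm g hu1)
        obtain ⟨c, hc⟩ := gen hP (XX_conj hP hm g hu1) h3.1 h3.2 h2
        have hc0 : c ≠ 0 := by
          rintro rfl
          rw [zero_smul] at hc
          apply (claim4 u hu1).2
          ext v
          have h4 := congrArg (fun f : Dual K U => f (r g v)) hc
          simp only [LinearMap.comp_apply, r_inv, LinearMap.zero_apply] at h4
          exact h4
        refine ⟨c⁻¹, ?_⟩
        ext v
        change β (r g u) (r g v) = c⁻¹ * β u v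
        have h4 := congrArg (fun f : Dual K U => f (r g v)) hc
        simp only [LinearMap.comp_apply, r_inv, LinearMap.smul_apply, smul_eq_mul] at h4
        rw [h4, ← mul_assoc, inv_mul_cancel₀ hc0, one_mul]
    obtain ⟨c, hc⟩ := prop_const β B hinj h1
    refine ⟨c, fun u v => ?_⟩
    have h2 := congrArg (fun f : Dual K U => f v) (hc u)
    exact h2
  choose ψ hψ using hsim
  refine ⟨β, ψ, halt, hinj, fun u => ?_, hψ⟩
  by_cases hu : u = 0
  · rw [hu, map_zero]
    exact hP.zero 0
  · exact (claim4 u (hall u hu)).1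

include hP hirr in
/-- **Main theorem of this file**: either all rank one nilpotent operators or a form. -/
theorem main (hne : ∃ u φ, u ≠ 0 ∧ φ ≠ 0 ∧ P u φ) :
    (2 < finrank K U ∧ ∀ u (φ : Dual K U), φ u = 0 → P u φ) ∨
    ∃ (β : U →ₗ[K] Dual K U) (ψ : G → K),
      (∀ u, β u u = 0) ∧ Function.Injective β ∧ (∀ u, P u (β u)) ∧
      ∀ g u v, β (r g u) (r g v) = ψ g * β u v := by
  classical
  obtain ⟨u0, φ0, hu0, hφ0, hP0⟩ := hne
  -- the maximal dimension
  obtain ⟨m, ⟨u1, hu1, hm1⟩, hm⟩ : ∃ m, (∃ u : U, u ≠ 0 ∧ finrank K (Phi hP u) = m) ∧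
      ∀ u : U, u ≠ 0 → finrank K (Phi hP u) ≤ m := by
    let S : Set ℕ := {n | ∃ u : U, u ≠ 0 ∧ finrank K (Phi hP u) = n}
    have hS : S.Nonempty := ⟨_, u0, hu0, rfl⟩
    have hb : BddAbove S := by
      refine ⟨finrank K (Dual K U), ?_⟩
      rintro n ⟨u, _, rfl⟩
      exact Submodule.finrank_le _
    exact ⟨sSup S, Nat.sSup_mem hS hb, fun u hu => le_csSup hb ⟨u, hu, rfl⟩⟩
  have hm0 : 1 ≤ m := by
    have h1 := hm u0 hu0
    have h2 : 0 < finrank K (Phi hP u0) := by
      refine Nat.pos_of_ne_zero fun h => hφ0 ?_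
      have h3 := Submodule.finrank_eq_zero.1 h
      have h4 : φ0 ∈ Phi hP u0 := hP0
      rwa [h3, Submodule.mem_bot] at h4
    omega
  have hx : ∃ u, XX hP m u := ⟨u1, hu1, hm1⟩
  rcases Nat.lt_or_ge 1 m with h | h
  · left
    exact large_all hP hm hirr hm0 h hx
  · right
    have h1 : m = 1 := le_antisymm h hm0
    subst h1
    exact case_one hP hm hirr hx

end

end Pool.Agent.W522.U
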