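import Mathlib
import Pool.Agent.H86.CMLib.W522.U.S3

/-!
# Lie algebras of families of operators: one component
-/

set_option linter.unusedSectionVars false

namespace Pool.Agent.W522.U

open Module

noncomputable section

variable {K : Type*} [Field K] [CharZero K]

section one

variable {V : Type*} [AddCommGroup V] [Module K V]

theorem exp_one (u : V) (φ : Dual K V) (hφ : φ u = 0) (v : V) (ψ : Dual K V) :
    ψ.smulRight v + (φ.smulRight u * ψ.smulRight v - ψ.smulRight v * φ.smulRight u) +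
      (1 / 2 : K) • (φ.smulRight u * (φ.smulRight u * ψ.smulRight v -
        ψ.smulRight v * φ.smulRight u) - (φ.smulRight u * ψ.smulRight v -
        ψ.smulRight v * φ.smulRight u) * φ.smulRight u) =
    ((ψ - ψ u • φ).smulRight (v + φ v • u) : Module.End K V) := by
  ext x
  simp only [LinearMap.add_apply, LinearMap.sub_apply, LinearMap.smul_apply,
    Module.End.mul_apply, LinearMap.smulRight_apply, map_sub, map_smul, smul_eq_mul, hφ,
    smul_sub, smul_add, zero_smul, smul_smul, map_zero]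
  module

theorem conj_one {G : Type*} [Group G] (r : Representation K G V) (g : G) (u : V)
    (φ : Dual K V) : r g * φ.smulRight u * r g⁻¹ =
      ((φ.comp (r g⁻¹)).smulRight (r g u) : Module.End K V) := by
  ext x
  simp only [Module.End.mul_apply, LinearMap.smulRight_apply, map_smul, LinearMap.comp_apply]

theorem trace_rk (u : V) (φ : Dual K V) [FiniteDimensional K V] :
    LinearMap.trace K V (φ.smulRight u) = φ u := by
  rw [LinearMap.trace_smulRight]

theorem smulRight_ne {u : V} {φ : Dual K V} (hu : u ≠ 0) (hφ : φ ≠ 0) :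
    (φ.smulRight u : Module.End K V) ≠ 0 := by
  intro h
  apply hφ
  ext v
  have h1 := congrArg (fun f : Module.End K V => f v) h
  simp only [LinearMap.smulRight_apply, LinearMap.zero_apply] at h1
  exact (smul_eq_zero.1 h1).resolve_right hu

end one

section family

variable {I : Type*} [DecidableEq I] {E : I → Type*} [∀ i, AddCommGroup (E i)]
  [∀ i, Module K (E i)] [∀ i, FiniteDimensional K (E i)] {G : Type*} [Group G]
  (r : ∀ i, Representation K G (E i))

/-- The bracket. -/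
def brk (X Y : ∀ i, Module.End K (E i)) : ∀ i, Module.End K (E i) :=
  fun i => X i * Y i - Y i * X i

/-- A space of families of operators closed under brackets and under the group. -/
structure LieFam (𝔥 : Submodule K (∀ i, Module.End K (E i))) : Prop where
  br : ∀ X ∈ 𝔥, ∀ Y ∈ 𝔥, brk X Y ∈ 𝔥
  conj : ∀ g, ∀ X ∈ 𝔥, (fun i => r i g * X i * r i g⁻¹) ∈ 𝔥

variable {r} {𝔥 : Submodule K (∀ i, Module.End K (E i))} (h𝔥 : LieFam r 𝔥)

include h𝔥 in
theorem exp_mem {X Z : ∀ i, Module.End K (E i)} (hX : X ∈ 𝔥) (hZ : Z ∈ 𝔥) :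
    Z + brk X Z + (1 / 2 : K) • brk X (brk X Z) ∈ 𝔥 :=
  𝔥.add_mem (𝔥.add_mem hZ (h𝔥.br _ hX _ hZ)) (𝔥.smul_mem _ (h𝔥.br _ hX _ (h𝔥.br _ hX _ hZ)))

theorem exp_comp {X Z : ∀ i, Module.End K (E i)} {i : I} {u v : E i} {φ ψ : Dual K (E i)}
    (hX : X i = φ.smulRight u) (hφ : φ u = 0) (hZ : Z i = ψ.smulRight v) :
    (Z + brk X Z + (1 / 2 : K) • brk X (brk X Z)) i =
      (ψ - ψ u • φ).smulRight (v + φ v • u) := by
  have h1 := exp_one u φ hφ v ψ
  rw [← h1]
  change Z i + (X i * Z i - Z i * X i) + (1 / 2 : K) • (X i * (X i * Z i - Z i * X i) -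
    (X i * Z i - Z i * X i) * X i) = _
  rw [hX, hZ]

include h𝔥 in
/-- The rank one nilpotent operators in the `i`-th component. -/
theorem sys_one (i : I) : Sys (r i) (fun u φ => φ u = 0 ∧ ∃ X ∈ 𝔥, X i = φ.smulRight u) where
  ker := fun u φ h => h.1
  zero := fun u => ⟨rfl, 0, 𝔥.zero_mem, by ext v; simp⟩
  add := by
    rintro u φ φ' ⟨h1, X, hX, hXi⟩ ⟨h1', X', hX', hXi'⟩
    refine ⟨by rw [LinearMap.add_apply, h1, h1', add_zero], X + X', 𝔥.add_mem hX hX', ?_⟩
    rw [Pi.add_apply, hXi, hXi']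
    ext v
    simp only [LinearMap.add_apply, LinearMap.smulRight_apply, add_smul]
  smul := by
    rintro c u φ ⟨h1, X, hX, hXi⟩
    refine ⟨by rw [LinearMap.smul_apply, h1, smul_zero], c • X, 𝔥.smul_mem _ hX, ?_⟩
    rw [Pi.smul_apply, hXi]
    ext v
    simp only [LinearMap.smul_apply, LinearMap.smulRight_apply, smul_eq_mul, smul_smul]
  addu := by
    rintro u v φ ⟨h1, X, hX, hXi⟩ ⟨h1', X', hX', hXi'⟩
    refine ⟨by rw [map_add, h1, h1', add_zero], X + X', 𝔥.add_mem hX hX', ?_⟩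
    rw [Pi.add_apply, hXi, hXi']
    ext v
    simp only [LinearMap.add_apply, LinearMap.smulRight_apply, smul_add]
  smulu := by
    rintro c u φ ⟨h1, X, hX, hXi⟩
    refine ⟨by rw [map_smul, h1, smul_zero], c • X, 𝔥.smul_mem _ hX, ?_⟩
    rw [Pi.smul_apply, hXi]
    ext v
    simp only [LinearMap.smul_apply, LinearMap.smulRight_apply]
    rw [smul_comm]
  exp := by
    rintro u φ v ψ ⟨h1, X, hX, hXi⟩ ⟨h1', X', hX', hXi'⟩
    refine ⟨?_, _, exp_mem h𝔥 hX hX', exp_comp hXi h1 hXi'⟩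
    simp only [LinearMap.sub_apply, LinearMap.smul_apply, map_add, map_smul, smul_eq_mul, h1, h1']
    ring
  conj := by
    rintro g u φ ⟨h1, X, hX, hXi⟩
    refine ⟨by rw [LinearMap.comp_apply, r_inv, h1], _, h𝔥.conj g X hX, ?_⟩
    change r i g * X i * r i g⁻¹ = _
    rw [hXi, conj_one]

/-- The types of the components. -/
structure Types (r : ∀ i, Representation K G (E i)) (𝔥 : Submodule K (∀ i, Module.End K (E i)))
    (act : I → Prop) (sd : I → Prop) (ω : ∀ i, E i →ₗ[K] Dual K (E i)) (χ : G → K) : Prop where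
  irr : ∀ i, act i → Irr (r i)
  alt : ∀ i, sd i → ∀ u, ω i u u = 0
  inj : ∀ i, sd i → Function.Injective (ω i)
  sim : ∀ i, sd i → ∀ g u v, ω i (r i g u) (r i g v) = χ g * ω i u v
  sp : ∀ i, sd i → ∀ X ∈ 𝔥, ∀ u v, ω i (X i u) v + ω i u (X i v) = 0
  nf : ∀ i, act i → ¬ sd i → ∀ (β : E i →ₗ[K] Dual K (E i)) (ψ : G → K), Function.Injective β →
    (∀ g u v, β (r i g u) (r i g v) = ψ g * β u v) → False
  nil : ∀ i, act i → ∃ N ∈ 𝔥, (∀ j, N j * N j = 0) ∧ ∃ (u : E i) (φ : Dual K (E i)),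
    u ≠ 0 ∧ φ ≠ 0 ∧ φ u = 0 ∧ N i = φ.smulRight u

variable {act sd : I → Prop} {ω : ∀ i, E i →ₗ[K] Dual K (E i)} {χ : G → K}
  (hT : Types r 𝔥 act sd ω χ)

/-- The rank one operators of the component `i`. -/
def Ty (sd : I → Prop) (ω : ∀ i, E i →ₗ[K] Dual K (E i)) (i : I) (u : E i)
    (φ : Dual K (E i)) : Prop := φ u = 0 ∧ (sd i → ∃ c : K, φ = c • ω i u)

include hT in
theorem skew {i : I} (hi : sd i) (u v : E i) : ω i u v = -ω i v u := by
  have h1 := hT.alt i hi (u + v)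
  simp only [map_add, LinearMap.add_apply, hT.alt i hi, zero_add, add_zero] at h1
  linear_combination h1

include hT in
theorem nondeg {i : I} (hi : sd i) {u : E i} (hu : u ≠ 0) : ∃ v, ω i u v ≠ 0 := by
  by_contra hcon
  push Not at hcon
  apply hu
  apply hT.inj i hi
  rw [map_zero]
  ext v
  exact hcon v

include hT in
theorem rk_sp {i : I} (hi : sd i) {X : ∀ i, Module.End K (E i)} (hX : X ∈ 𝔥) {u : E i}
    {φ : Dual K (E i)} (hXi : X i = φ.smulRight u) (hu : u ≠ 0) : ∃ c : K, φ = c • ω i u := by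
  obtain ⟨w, hw⟩ := nondeg hT hi hu
  refine ⟨φ w / ω i u w, ?_⟩
  ext v
  have h1 := hT.sp i hi X hX v w
  rw [hXi, LinearMap.smulRight_apply, LinearMap.smulRight_apply, map_smul, map_smul,
    LinearMap.smul_apply, smul_eq_mul, smul_eq_mul, skew hT hi v u] at h1
  rw [LinearMap.smul_apply, smul_eq_mul]
  field_simp
  linear_combination h1

include hT in
/-- From the main theorem to types. -/
theorem ty_of_main {i : I} (hi : act i) {P : E i → Dual K (E i) → Prop} (hP : Sys (r i) P)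
    (hPX : ∀ u φ, P u φ → ∃ X ∈ 𝔥, X i = φ.smulRight u)
    (hne : ∃ u φ, u ≠ 0 ∧ φ ≠ 0 ∧ P u φ) : ∀ u φ, Ty sd ω i u φ → P u φ := by
  intro u φ hφ
  rcases main hP (hT.irr i hi) hne with ⟨_, h⟩ | ⟨β, ψ, h1, h2, h3, h4⟩
  · exact h u φ hφ.1
  · by_cases hs : sd i
    · obtain ⟨c, hc⟩ := hφ.2 hs
      by_cases hu : u = 0
      · rw [hc, hu, map_zero, smul_zero]
        exact hP.zero _
      · obtain ⟨X, hX, hXi⟩ := hPX u (β u) (h3 u)
        obtain ⟨d, hd⟩ := rk_sp hT hs hX hXi hu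
        have hd0 : d ≠ 0 := by
          rintro rfl
          rw [zero_smul, ← map_zero β] at hd
          exact hu (h2 hd)
        rw [hc]
        apply hP.smul
        have h5 : ω i u = d⁻¹ • β u := by
          rw [hd, smul_smul, inv_mul_cancel₀ hd0, one_smul]
        rw [h5]
        exact hP.smul _ _ _ (h3 u)
    · exact (hT.nf i hi hs β ψ h2 h4).elim

include hT h𝔥 in
theorem finrank_sl {i : I} (hi : act i) (hs : ¬ sd i) : 2 < finrank K (E i) := by
  obtain ⟨N, hN, _, u, φ, hu, hφ, hφu, hNi⟩ := hT.nil i hi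
  rcases main (sys_one h𝔥 i) (hT.irr i hi) ⟨u, φ, hu, hφ, hφu, N, hN, hNi⟩ with
    ⟨h, _⟩ | ⟨β, ψ, _, h2, _, h4⟩
  · exact h
  · exact (hT.nf i hi hs β ψ h2 h4).elim

include hT in
/-- All operators of the type of `i` are in a Lie family which contains one. -/
theorem full_sub {i : I} (hi : act i) {𝔥' : Submodule K (∀ i, Module.End K (E i))}
    (h𝔥' : LieFam r 𝔥') (hle : 𝔥' ≤ 𝔥)
    (hne : ∃ (u : E i) (φ : Dual K (E i)), u ≠ 0 ∧ φ ≠ 0 ∧ φ u = 0 ∧
      ∃ X ∈ 𝔥', X i = φ.smulRight u) :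
    ∀ u φ, Ty sd ω i u φ → ∃ X ∈ 𝔥', X i = φ.smulRight u := by
  intro u φ hφ
  refine (ty_of_main hT hi (sys_one h𝔥' i) ?_ hne u φ hφ).2
  rintro u φ ⟨_, X, hX, hXi⟩
  exact ⟨X, hle hX, hXi⟩

include hT h𝔥 in
theorem full {i : I} (hi : act i) : ∀ u φ, Ty sd ω i u φ → ∃ X ∈ 𝔥, X i = φ.smulRight u := by
  obtain ⟨N, hN, _, u, φ, hu, hφ, hφu, hNi⟩ := hT.nil i hi
  exact full_sub hT hi h𝔥 le_rfl ⟨u, φ, hu, hφ, hφu, N, hN, hNi⟩

end family

end

end Pool.Agent.W522.U
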