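import Mathlib
import Pool.Agent.H86.CMLib.W522.U.A4

/-!
# Independence of the components
-/

set_option linter.unusedSectionVars false

namespace Pool.Agent.W522.U

open Module

noncomputable section

variable {K : Type*} [Field K] [CharZero K]

section pair

variable {V W G : Type*} [AddCommGroup V] [Module K V] [FiniteDimensional K V] [AddCommGroup W]
  [Module K W] [FiniteDimensional K W] [Group G] {rV : Representation K G V}
  {rW : Representation K G W} {𝔭 : Submodule K (Module.End K V × Module.End K W)}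
  (hp : PairSL rV rW 𝔭)

/-- The negative of the transpose. -/
def negT (W : Type*) [AddCommGroup W] [Module K W] :
    Module.End K W →ₗ[K] Module.End K (Dual K W) where
  toFun y :=
    { toFun := fun f => -(f.comp y)
      map_add' := by
        intro f g
        ext v
        simp only [LinearMap.neg_apply, LinearMap.comp_apply, LinearMap.add_apply]
        ring
      map_smul' := by
        intro c f
        ext v
        simp only [LinearMap.neg_apply, LinearMap.comp_apply, LinearMap.smul_apply,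
          RingHom.id_apply, smul_eq_mul]
        ring }
  map_add' x y := by
    ext f v
    change -(f (x v + y v)) = -(f (x v)) + -(f (y v))
    rw [map_add]
    ring
  map_smul' c x := by
    ext f v
    change -(f (c • x v)) = c * -(f (x v))
    rw [map_smul, smul_eq_mul]
    ring

theorem negT_apply (y : Module.End K W) (f : Dual K W) (v : W) :
    negT W y f v = -(f (y v)) := rfl

theorem trace_negT (y : Module.End K W) :
    LinearMap.trace K (Dual K W) (negT W y) = -(LinearMap.trace K W y) := by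
  have h1 : negT W y = (-1 : K) • (Module.Dual.transpose (R := K) y) := by
    ext f v
    change -(f (y v)) = (-1 : K) * f (y v)
    ring
  rw [h1, map_smul, LinearMap.trace_transpose', smul_eq_mul]
  ring

theorem negT_smulRight (p : W) (α : Dual K W) :
    negT W (α.smulRight p) = ((Dual.eval K W p).smulRight (-α) : Module.End K (Dual K W)) := by
  ext f v
  change -(f (α v • p)) = (f p • (-α)) v
  rw [map_smul, LinearMap.smul_apply, LinearMap.neg_apply, smul_eq_mul, smul_eq_mul]
  ring

/-- The dual pairs. -/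
def dualMapP (V W : Type*) [AddCommGroup V] [Module K V] [AddCommGroup W] [Module K W] :
    (Module.End K V × Module.End K W) →ₗ[K] (Module.End K V × Module.End K (Dual K W)) :=
  LinearMap.prodMap LinearMap.id (negT W)

theorem dualMapP_apply (x : Module.End K V × Module.End K W) :
    dualMapP V W x = (x.1, negT W x.2) := rfl

include hp in
theorem pairSL_dual : PairSL rV (Representation.dual rW) (𝔭.map (dualMapP V W)) where
  br := by
    rintro _ ⟨x, hx, rfl⟩ _ ⟨y, hy, rfl⟩
    refine ⟨_, hp.br x hx y hy, ?_⟩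
    rw [dualMapP_apply, dualMapP_apply, dualMapP_apply]
    ext1
    · rfl
    · ext f v
      change -(f (x.2 (y.2 v) - y.2 (x.2 v))) = (-(-(f (y.2 (x.2 v))))) - (-(-(f (x.2 (y.2 v)))))
      rw [map_sub]
      ring
  conj := by
    rintro g _ ⟨x, hx, rfl⟩
    refine ⟨_, hp.conj g x hx, ?_⟩
    rw [dualMapP_apply, dualMapP_apply]
    ext1
    · rfl
    · ext f v
      change -(f (rW g (x.2 (rW g⁻¹ v)))) = -(f (rW g⁻¹⁻¹ (x.2 (rW g⁻¹ v))))
      rw [inv_inv]
  ker := by
    rintro y ⟨x, hx, hxy⟩ hy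
    rw [dualMapP_apply] at hxy
    have h1 : x.1 = 0 := congrArg Prod.fst hxy
    have h2 : negT W x.2 = y := congrArg Prod.snd hxy
    have h3 : LinearMap.trace K W x.2 = 0 := by
      rw [← h2, trace_negT, neg_eq_zero] at hy
      exact hy
    have h4 : x = ((0 : Module.End K V), x.2) := by
      ext1
      · exact h1
      · rfl
    have hx' : x ∈ 𝔭 := hx
    rw [h4] at hx'
    have h5 := hp.ker _ hx' h3
    rw [← h2, h5, map_zero]
  rk := by
    intro u φ hφ
    obtain ⟨p, α, h1, h2⟩ := hp.rk u φ hφ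
    refine ⟨-α, Dual.eval K W p, ?_, _, h2, ?_⟩
    · change (-α) p = 0
      rw [LinearMap.neg_apply, h1, neg_zero]
    · rw [dualMapP_apply]
      ext1
      · rfl
      · exact negT_smulRight p α
  inj := by
    rintro u φ hu hφ hφu ⟨x, hx, hxy⟩
    rw [dualMapP_apply] at hxy
    have h1 : x.1 = φ.smulRight u := congrArg Prod.fst hxy
    have h2 : negT W x.2 = 0 := congrArg Prod.snd hxy
    have h3 : x.2 = 0 := by
      ext v
      rw [LinearMap.zero_apply, ← Module.forall_dual_apply_eq_zero_iff K]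
      intro f
      have h5 := congrArg (fun F : Module.End K (Dual K W) => F f v) h2
      simp only [negT_apply, LinearMap.zero_apply, neg_eq_zero] at h5
      exact h5
    refine hp.inj u φ hu hφ hφu ?_
    have h4 : x = ((φ.smulRight u : Module.End K V), (0 : Module.End K W)) := by
      ext1
      · exact h1
      · exact h3
    rw [← h4]
    exact hx
  dim := hp.dim

include hp in
theorem sl_pair : (∃ (T : V →ₗ[K] W) (ψ : G → K), T ≠ 0 ∧
      ∀ g u, T (rV g u) = ψ g • rW g (T u)) ∨
    (∃ (T : V →ₗ[K] Dual K W) (ψ : G → K), T ≠ 0 ∧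
      ∀ g u, T (rV g u) = ψ g • Representation.dual rW g (T u)) := by
  obtain ⟨e, φ₁, he⟩ : ∃ (e : V) (φ₁ : Dual K V), φ₁ e = 1 := by
    have h1 : 0 < finrank K V := lt_trans (by norm_num) hp.dim
    have _ : Nontrivial V := Module.nontrivial_of_finrank_pos h1
    obtain ⟨e, he⟩ := _root_.exists_ne (0 : V)
    obtain ⟨η, -, hη⟩ := exists_sep (K := K) (u := (0 : V)) (v := e) (by
        rw [Submodule.span_zero_singleton, Submodule.mem_bot]
        exact he)
    exact ⟨e, (η e)⁻¹ • η, by rw [LinearMap.smul_apply, smul_eq_mul, inv_mul_cancel₀ hη]⟩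
  obtain ⟨θ, hθ⟩ := exists_theta hp
  let M : V →ₗ[K] Module.End K W :=
    { toFun := fun u => θ (φ₁.smulRight u)
      map_add' := by
        intro u v
        have h1 : (φ₁.smulRight (u + v) : Module.End K V) = φ₁.smulRight u + φ₁.smulRight v := by
          ext w
          simp only [LinearMap.smulRight_apply, LinearMap.add_apply, smul_add]
        rw [h1, map_add]
      map_smul' := by
        intro c u
        have h1 : (φ₁.smulRight (c • u) : Module.End K V) = c • φ₁.smulRight u := by
          ext w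
          simp only [LinearMap.smulRight_apply, LinearMap.smul_apply]
          rw [smul_comm]
        rw [h1, map_smul, RingHom.id_apply] }
  have hM : ∀ u, φ₁ u = 0 → ((φ₁.smulRight u : Module.End K V), M u) ∈ 𝔭 ∧
      LinearMap.trace K W (M u) = 0 ∧ ∃ (p : W) (α : Dual K W), M u = α.smulRight p := by
    intro u hu
    obtain ⟨p, α, h1, h2⟩ := hp.rk u φ₁ hu
    have h3 : M u = α.smulRight p := hθ _ h2 (by rw [trace_rk, h1])
    rw [h3]
    exact ⟨h2, by rw [trace_rk, h1], p, α, rfl⟩
  rcases rank_one_space (LinearMap.ker φ₁) M (fun u hu => (hM u hu).2.2) with ⟨p, h⟩ | ⟨α, h⟩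
  · right
    refine sl_core (pairSL_dual hp) he (α₀ := Dual.eval K W p) ?_
    intro u hu
    obtain ⟨α, hα⟩ := h u hu
    obtain ⟨h1, h2, _⟩ := hM u hu
    rw [hα] at h1 h2
    rw [trace_rk] at h2
    refine ⟨-α, ?_, _, h1, ?_⟩
    · change (-α) p = 0
      rw [LinearMap.neg_apply, h2, neg_zero]
    · rw [dualMapP_apply]
      ext1
      · rfl
      · exact negT_smulRight p α
  · left
    refine sl_core hp he (α₀ := α) ?_
    intro u hu
    obtain ⟨p, hα⟩ := h u hu
    obtain ⟨h1, h2, _⟩ := hM u hu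
    rw [hα] at h1 h2
    rw [trace_rk] at h2
    exact ⟨p, h2, h1⟩

end pair

section family

variable {I : Type*} [DecidableEq I] {E : I → Type*} [∀ i, AddCommGroup (E i)]
  [∀ i, Module K (E i)] [∀ i, FiniteDimensional K (E i)] {G : Type*} [Group G]
  {r : ∀ i, Representation K G (E i)}
  {𝔥 : Submodule K (∀ i, Module.End K (E i))} (h𝔥 : LieFam r 𝔥)
  {act sd : I → Prop} {ω : ∀ i, E i →ₗ[K] Dual K (E i)} {χ : G → K}
  (hT : Types r 𝔥 act sd ω χ)

/-- No twisted homomorphisms from `V` to `W` or its dual. -/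
def NoTwist {V W G : Type*} [AddCommGroup V] [Module K V] [AddCommGroup W]
    [Module K W] [Group G] (rV : Representation K G V) (rW : Representation K G W) : Prop :=
  (∀ (T : V →ₗ[K] W) (ψ : G → K), (∀ g u, T (rV g u) = ψ g • rW g (T u)) → T = 0) ∧
  (∀ (T : V →ₗ[K] Dual K W) (ψ : G → K),
    (∀ g u, T (rV g u) = ψ g • Representation.dual rW g (T u)) → T = 0)

include h𝔥 hT in
theorem ind_sl {i j : I} (hi : act i) (hj : act j) (hs : ¬ sd i)
    (hN : NoTwist (r i) (r j)) : Ind 𝔥 i j := by
  by_contra hij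
  have hp : PairSL (r i) (r j) (𝔥.map (LinearMap.prod (LinearMap.proj i) (LinearMap.proj j))) :=
    { br := by
        rintro _ ⟨X, hX, rfl⟩ _ ⟨Y, hY, rfl⟩
        exact ⟨_, h𝔥.br X hX Y hY, rfl⟩
      conj := by
        rintro g _ ⟨X, hX, rfl⟩
        exact ⟨_, h𝔥.conj g X hX, rfl⟩
      ker := by
        rintro y ⟨X, hX, hXy⟩ hy
        have h1 : X i = 0 := congrArg Prod.fst hXy
        have h2 : X j = y := congrArg Prod.snd hXy
        rw [← h2] at hy ⊢
        exact ker_zero h𝔥 hT hi hj hij hX h1 hy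
      rk := by
        intro u φ hφ
        obtain ⟨X, hX, hXi, p, α, h1, hXj⟩ := full_two h𝔥 hT hi hj hij u φ
          ⟨hφ, fun h => absurd h hs⟩
        refine ⟨p, α, h1, X, hX, ?_⟩
        rw [← hXi, ← hXj]
        rfl
      inj := by
        rintro u φ hu hφ hφu ⟨X, hX, hXy⟩
        have h1 : X i = φ.smulRight u := congrArg Prod.fst hXy
        have h2 : X j = 0 := congrArg Prod.snd hXy
        exact hij ⟨X, hX, h2, u, φ, hu, hφ, hφu, h1⟩
      dim := finrank_sl h𝔥 hT hi hs }
  rcases sl_pair hp with ⟨T, ψ, h1, h2⟩ | ⟨T, ψ, h1, h2⟩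
  · exact h1 (hN.1 T ψ h2)
  · exact h1 (hN.2 T ψ h2)

include h𝔥 hT in
/-- **Independence**. -/
theorem independent {i j : I} (hi : act i) (hj : act j) (hN : NoTwist (r i) (r j))
    (hN' : NoTwist (r j) (r i)) : Ind 𝔥 i j := by
  by_cases hsi : sd i
  · by_cases hsj : sd j
    · by_contra hij
      obtain ⟨T, ψ, h1, h2⟩ := sp_sp h𝔥 hT hi hj hsi hsj hij
      exact h1 (hN.1 T ψ h2)
    · by_contra hij
      exact ind_symm h𝔥 hT hi hj hij (ind_sl h𝔥 hT hj hi hsj hN')
  · exact ind_sl h𝔥 hT hi hj hsi hN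

include h𝔥 hT in
/-- All rank one operators of type `i` that vanish in the other components. -/
theorem full_indep {i : I} (hi : act i) (J : Finset I) (hJ : ∀ j ∈ J, Ind 𝔥 i j) :
    ∀ u φ, Ty sd ω i u φ → ∃ X ∈ 𝔥, X i = φ.smulRight u ∧ ∀ j ∈ J, X j = 0 := by
  classical
  have key : ∀ u φ, Ty sd ω i u φ → ∃ X ∈ sub 𝔥 (↑J : Set I), X i = φ.smulRight u := by
    induction J using Finset.induction_on with
    | empty =>
      intro u φ hφ
      obtain ⟨X, hX, hXi⟩ := full h𝔥 hT hi u φ hφ
      exact ⟨X, ⟨hX, fun j hj => by simp at hj⟩, hXi⟩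
    | insert j J hj ih =>
      have ih := ih (fun k hk => hJ k (Finset.mem_insert_of_mem hk))
      obtain ⟨Y₀, hY₀, hY₀j, w₀, ψ₀, hw₀, hψ₀, hψw₀, hY₀i⟩ := hJ j (Finset.mem_insert_self _ _)
      have hfj := full_sub hT hi (lieFam_sub h𝔥 {j}) (fun X hX => hX.1)
        ⟨w₀, ψ₀, hw₀, hψ₀, hψw₀, Y₀, ⟨hY₀, fun k hk => by
          rw [Set.mem_singleton_iff] at hk
          subst hk
          exact hY₀j⟩, hY₀i⟩
      refine full_sub hT hi (lieFam_sub h𝔥 _) (fun X hX => hX.1) ?_
      -- a pair of the type of `i`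
      obtain ⟨u, φ, w, ψ, h1, h2, h3, h4⟩ : ∃ (u : E i) (φ : Dual K (E i)) (w : E i)
          (ψ : Dual K (E i)), Ty sd ω i u φ ∧ Ty sd ω i w ψ ∧ ψ u ≠ 0 ∧ φ w ≠ 0 := by
        by_cases hs : sd i
        · obtain ⟨w, hw⟩ := nondeg hT hs hw₀
          refine ⟨w₀, ω i w₀, w, ω i w, ty_self hT hs w₀, ty_self hT hs w, ?_, hw⟩
          rw [skew hT hs]
          exact neg_ne_zero.2 hw
        · obtain ⟨w, hw⟩ := exists_one hψ₀
          have h5 : w₀ ∉ Submodule.span K {w} := by
            intro h
            obtain ⟨a, rfl⟩ := Submodule.mem_span_singleton.1 h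
            rw [map_smul, hw, smul_eq_mul, mul_one] at hψw₀
            rw [hψw₀, zero_smul] at hw₀
            exact hw₀ rfl
          obtain ⟨ψ, h6, h7⟩ := exists_sep h5
          refine ⟨w₀, ψ₀, w, ψ, ⟨hψw₀, fun h => absurd h hs⟩, ⟨h6, fun h => absurd h hs⟩, h7, ?_⟩
          rw [hw]
          exact one_ne_zero
      obtain ⟨X, hX, hXi⟩ := ih u φ h1
      obtain ⟨Y, hY, hYi⟩ := hfj w ψ h2
      have hu : u ≠ 0 := by
        rintro rfl
        exact h3 (map_zero ψ)
      have hφ : φ ≠ 0 := by
        rintro rfl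
        exact h4 rfl
      refine ⟨u, ((-2 : K) * (ψ u * φ w)) • φ, hu, smul_ne_zero (mul_ne_zero (by norm_num)
        (mul_ne_zero h3 h4)) hφ, by rw [LinearMap.smul_apply, h1.1, smul_zero],
        brk X (brk X Y), ⟨h𝔥.br _ hX.1 _ (h𝔥.br _ hX.1 _ hY.1), ?_⟩, ?_⟩
      · intro k hk
        rw [Finset.coe_insert, Set.mem_insert_iff] at hk
        rcases hk with rfl | hk
        · have h5 := hY.2 k rfl
          simp only [brk, h5, mul_zero, zero_mul, sub_zero]
        · have h5 := hX.2 k hk
          simp only [brk, h5, mul_zero, zero_mul, sub_zero]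
      · ext v
        simp only [brk, hXi, hYi, LinearMap.sub_apply, Module.End.mul_apply,
          LinearMap.smulRight_apply, map_sub, map_smul, h1.1, smul_eq_mul, LinearMap.smul_apply]
        module
  intro u φ hφ
  obtain ⟨X, hX, hXi⟩ := key u φ hφ
  exact ⟨X, hX.1, hXi, fun j hj => hX.2 j hj⟩

end family

end

end Pool.Agent.W522.U
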