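import Mathlib
import Pool.Agent.H86.CMLib.H204R3.GP.Classes

/-!
# Strongly irreducible subspaces
-/

set_option linter.unusedSectionVars false

namespace Pool.Agent.W522.U

open Module Pool.Agent.H204R3.SP Pool.Agent.H204R3.GP

variable {K : Type*} [Field K] {X : Type*} [AddCommGroup X] [Module K X]
  {Γ : Type*} [Group Γ] (R : Representation K Γ X) (χ : Γ →* K)

/-- A subspace is potentially stable if it is stable under a subgroup of finite index. -/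
def Pot (U : Submodule K X) : Prop :=
  ∃ Δ : Subgroup Γ, Δ.FiniteIndex ∧ ∀ g ∈ Δ, ∀ u ∈ U, R g u ∈ U

/-- The strongly irreducible subspaces: the minimal nonzero potentially stable subspaces. -/
def SI (U : Submodule K X) : Prop :=
  U ≠ ⊥ ∧ Pot R U ∧ ∀ W ≤ U, Pot R W → W = ⊥ ∨ W = U

/-- The subspace `U` maps to `U'` by a nonzero map which is, over a subgroup of finite index,
equivariant up to the function `ψ`. -/
def Tw (ψ : Γ → K) (U U' : Submodule K X) : Prop :=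
  ∃ Δ : Subgroup Γ, Δ.FiniteIndex ∧ ∃ T : X →ₗ[K] X, (∀ u ∈ U, T u ∈ U') ∧ (∃ u ∈ U, T u ≠ 0) ∧
    ∀ g ∈ Δ, ∀ u ∈ U, T (R g u) = ψ g • R g (T u)

/-- There is a nonzero pairing of `U` and `U'` on which a subgroup of finite index acts by the
character `χ`. -/
def Du (U U' : Submodule K X) : Prop :=
  ∃ Δ : Subgroup Γ, Δ.FiniteIndex ∧ ∃ B : X →ₗ[K] X →ₗ[K] K, (∃ u ∈ U, ∃ v ∈ U', B u v ≠ 0) ∧
    ∀ g ∈ Δ, ∀ u ∈ U, ∀ v ∈ U', B (R g u) (R g v) = χ g * B u v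

variable {R χ}

theorem Rinv (g : Γ) (v : X) : R g⁻¹ (R g v) = v := by
  rw [← Module.End.mul_apply, ← map_mul, inv_mul_cancel, map_one]
  rfl

theorem Rinv' (g : Γ) (v : X) : R g (R g⁻¹ v) = v := by
  rw [← Module.End.mul_apply, ← map_mul, mul_inv_cancel, map_one]
  rfl

theorem Rne (g : Γ) {v : X} (hv : v ≠ 0) : R g v ≠ 0 := by
  intro h
  apply hv
  rw [← Rinv (R := R) g v, h, map_zero]

theorem χne (g : Γ) : χ g ≠ 0 := by
  intro h
  have h1 : χ (g * g⁻¹) = 1 := by rw [mul_inv_cancel, map_one]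
  rw [map_mul, h, zero_mul] at h1
  exact zero_ne_one h1

theorem pot_top : Pot R (⊤ : Submodule K X) := ⟨⊤, inferInstance, fun _ _ _ _ => trivial⟩

theorem Pot.inf {U U' : Submodule K X} (h : Pot R U) (h' : Pot R U') : Pot R (U ⊓ U') := by
  obtain ⟨Δ, hΔ, h1⟩ := h
  obtain ⟨Δ', hΔ', h1'⟩ := h'
  exact ⟨Δ ⊓ Δ', inferInstance, fun g hg u hu => ⟨h1 g hg.1 u hu.1, h1' g hg.2 u hu.2⟩⟩

theorem Pot.sup {U U' : Submodule K X} (h : Pot R U) (h' : Pot R U') : Pot R (U ⊔ U') := by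
  obtain ⟨Δ, hΔ, h1⟩ := h
  obtain ⟨Δ', hΔ', h1'⟩ := h'
  refine ⟨Δ ⊓ Δ', inferInstance, fun g hg u hu => ?_⟩
  obtain ⟨a, ha, b, hb, rfl⟩ := Submodule.mem_sup.1 hu
  rw [map_add]
  exact Submodule.add_mem_sup (h1 g hg.1 a ha) (h1' g hg.2 b hb)

theorem Pot.mapR {U : Submodule K X} (h : Pot R U) (γ : Γ) : Pot R (U.map (R γ)) := by
  obtain ⟨Δ, hΔ, h1⟩ := h
  refine ⟨Δ.normalCore, inferInstance, fun g hg u hu => ?_⟩
  obtain ⟨a, ha, rfl⟩ := hu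
  have h2 : γ⁻¹ * g * γ ∈ Δ := by
    apply Δ.normalCore_le
    have h3 := Subgroup.normalCore_normal Δ
    have h4 := h3.conj_mem g hg γ⁻¹
    rwa [inv_inv] at h4
  refine ⟨R (γ⁻¹ * g * γ) a, h1 _ h2 a ha, ?_⟩
  rw [← Module.End.mul_apply, ← Module.End.mul_apply, ← map_mul, ← map_mul]
  congr 2
  group

/-- Every nonzero potentially stable subspace contains a strongly irreducible one. -/
theorem exists_SI [FiniteDimensional K X] (n : ℕ) : ∀ W : Submodule K X, finrank K W = n →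
    W ≠ ⊥ → Pot R W → ∃ U ≤ W, SI R U := by
  induction n using Nat.strong_induction_on with
  | _ n ih =>
    intro W hn h0 hW
    by_cases h : SI R W
    · exact ⟨W, le_rfl, h⟩
    · have h1 : ∃ W' ≤ W, Pot R W' ∧ W' ≠ ⊥ ∧ W' ≠ W := by
        by_contra hcon
        push Not at hcon
        refine h ⟨h0, hW, fun W' h2 h3 => ?_⟩
        by_cases h4 : W' = ⊥
        · exact Or.inl h4
        · exact Or.inr (hcon W' h2 h3 h4)
      obtain ⟨W', h2, h3, h4, h5⟩ := h1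
      have h6 : finrank K W' < n := by
        rw [← hn]
        exact Submodule.finrank_lt_finrank_of_lt (lt_of_le_of_ne h2 h5)
      obtain ⟨U, hU, hU'⟩ := ih _ h6 W' rfl h4 h3
      exact ⟨U, hU.trans h2, hU'⟩

theorem SI.mapR {U : Submodule K X} (h : SI R U) (γ : Γ) : SI R (U.map (R γ)) := by
  obtain ⟨h1, h2, h3⟩ := h
  have hinv : ∀ W : Submodule K X, (W.map (R γ)).map (R γ⁻¹) = W := by
    intro W
    rw [← Submodule.map_comp]
    have h4 : (R γ⁻¹).comp (R γ) = LinearMap.id := by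
      ext v
      exact Rinv γ v
    rw [h4, Submodule.map_id]
  have hinv' : ∀ W : Submodule K X, (W.map (R γ⁻¹)).map (R γ) = W := by
    intro W
    rw [← Submodule.map_comp]
    have h4 : (R γ).comp (R γ⁻¹) = LinearMap.id := by
      ext v
      exact Rinv' γ v
    rw [h4, Submodule.map_id]
  refine ⟨fun h => h1 ?_, h2.mapR γ, fun W hW hW' => ?_⟩
  · rw [← hinv U, h, Submodule.map_bot]
  · rcases h3 (W.map (R γ⁻¹)) (by rw [← hinv U]; exact Submodule.map_mono hW) (hW'.mapR γ⁻¹)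
      with h4 | h4
    · left
      rw [← hinv' W, h4, Submodule.map_bot]
    · right
      rw [← hinv' W, h4]

/-- A linear projection. -/
theorem exists_pr (U : Submodule K X) : ∃ p : X →ₗ[K] U, ∀ u : U, p u = u := by
  obtain ⟨p, hp⟩ := U.subtype.exists_leftInverse_of_injective U.ker_subtype
  exact ⟨p, fun u => congrArg (fun f : U →ₗ[K] U => f u) hp⟩

section tw

variable {U U' U'' : Submodule K X} {Δ : Subgroup Γ} {T : X →ₗ[K] X} {ψ : Γ → K}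

theorem tw_inj (hU : SI R U) (hΔ : Δ.FiniteIndex) (h0 : ∃ u ∈ U, T u ≠ 0)
    (hT : ∀ g ∈ Δ, ∀ u ∈ U, T (R g u) = ψ g • R g (T u)) : ∀ u ∈ U, T u = 0 → u = 0 := by
  obtain ⟨Δ', hΔ', h1⟩ := hU.2.1
  have h2 : Pot R (U ⊓ LinearMap.ker T) := by
    refine ⟨Δ ⊓ Δ', inferInstance, fun g hg u hu => ⟨h1 g hg.2 u hu.1, ?_⟩⟩
    change T (R g u) = 0
    rw [hT g hg.1 u hu.1, LinearMap.mem_ker.1 hu.2, map_zero, smul_zero]
  rcases hU.2.2 _ inf_le_left h2 with h3 | h3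
  · intro u hu hTu
    have h4 : u ∈ U ⊓ LinearMap.ker T := ⟨hu, hTu⟩
    rwa [h3, Submodule.mem_bot] at h4
  · obtain ⟨u, hu, hu0⟩ := h0
    rw [← h3] at hu
    exact absurd hu.2 hu0

theorem tw_ne (hU : SI R U) (hΔ : Δ.FiniteIndex) (h0 : ∃ u ∈ U, T u ≠ 0)
    (hT : ∀ g ∈ Δ, ∀ u ∈ U, T (R g u) = ψ g • R g (T u)) {g : Γ} (hg : g ∈ Δ)
    (hgU : ∀ u ∈ U, R g u ∈ U) : ψ g ≠ 0 := by
  intro h
  obtain ⟨u, hu, hu0⟩ := id h0
  have h1 := hT g hg u hu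
  rw [h, zero_smul] at h1
  have h2 := tw_inj hU hΔ h0 hT _ (hgU u hu) h1
  apply hu0
  have h3 : u = 0 := by
    by_contra h4
    exact Rne g h4 h2
  rw [h3, map_zero]

theorem tw_map (hU : SI R U) (hU' : SI R U') (hΔ : Δ.FiniteIndex) (hTU : ∀ u ∈ U, T u ∈ U')
    (h0 : ∃ u ∈ U, T u ≠ 0) (hT : ∀ g ∈ Δ, ∀ u ∈ U, T (R g u) = ψ g • R g (T u)) :
    U.map T = U' := by
  obtain ⟨Δ', hΔ', h1⟩ := hU.2.1
  have h2 : Pot R (U.map T) := by
    refine ⟨Δ ⊓ Δ', inferInstance, fun g hg v hv => ?_⟩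
    obtain ⟨u, hu, rfl⟩ := hv
    have h3 := tw_ne hU hΔ h0 hT hg.1 (h1 g hg.2)
    refine ⟨(ψ g)⁻¹ • R g u, U.smul_mem _ (h1 g hg.2 u hu), ?_⟩
    rw [map_smul, hT g hg.1 u hu, smul_smul, inv_mul_cancel₀ h3, one_smul]
  have h3 : U.map T ≤ U' := by
    rintro _ ⟨u, hu, rfl⟩
    exact hTU u hu
  rcases hU'.2.2 _ h3 h2 with h4 | h4
  · obtain ⟨u, hu, hu0⟩ := h0
    exfalso
    apply hu0
    rw [← Submodule.mem_bot K, ← h4]
    exact Submodule.mem_map_of_mem hu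
  · exact h4

theorem Tw.symm (hU : SI R U) (hU' : SI R U') (h : Tw R ψ U U') :
    Tw R (fun g => (ψ g)⁻¹) U' U := by
  obtain ⟨Δ, hΔ, T, hTU, h0, hT⟩ := h
  obtain ⟨Δ', hΔ', h1⟩ := hU.2.1
  have hinj := tw_inj hU hΔ h0 hT
  have hmap := tw_map hU hU' hΔ hTU h0 hT
  let T1 : U →ₗ[K] U' := T.restrict hTU
  have hb : Function.Bijective T1 := by
    constructor
    · rw [injective_iff_map_eq_zero]
      intro u hu
      have h2 : T u = 0 := congrArg Subtype.val hu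
      exact Subtype.ext (hinj u u.2 h2)
    · intro v
      have h2 : (v : X) ∈ U.map T := by
        rw [hmap]
        exact v.2
      obtain ⟨u, hu, huv⟩ := h2
      exact ⟨⟨u, hu⟩, Subtype.ext huv⟩
  let e := LinearEquiv.ofBijective T1 hb
  obtain ⟨p, hp⟩ := exists_pr U'
  let T' : X →ₗ[K] X := U.subtype.comp (e.symm.toLinearMap.comp p)
  have hT' : ∀ u ∈ U, T' (T u) = u := by
    intro u hu
    have h2 : p (T u) = e ⟨u, hu⟩ := hp (e ⟨u, hu⟩)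
    change ((e.symm (p (T u)) : U) : X) = u
    rw [h2, e.symm_apply_apply]
  refine ⟨Δ ⊓ Δ', inferInstance, T', fun v _ => SetLike.coe_mem _, ?_, ?_⟩
  · obtain ⟨u, hu, hu0⟩ := h0
    refine ⟨T u, hTU u hu, ?_⟩
    rw [hT' u hu]
    rintro rfl
    exact hu0 (map_zero _)
  · intro g hg v hv
    rw [← hmap] at hv
    obtain ⟨u, hu, rfl⟩ := hv
    have h3 := tw_ne hU hΔ h0 hT hg.1 (h1 g hg.2)
    rw [hT' u hu]
    have h4 : R g (T u) = (ψ g)⁻¹ • T (R g u) := by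
      rw [hT g hg.1 u hu, smul_smul, inv_mul_cancel₀ h3, one_smul]
    rw [h4, map_smul, hT' _ (h1 g hg.2 u hu)]

theorem Tw.trans {ψ' : Γ → K} (hU' : SI R U') (h : Tw R ψ U U') (h' : Tw R ψ' U' U'') :
    Tw R (fun g => ψ g * ψ' g) U U'' := by
  obtain ⟨Δ, hΔ, T, hTU, h0, hT⟩ := h
  obtain ⟨Δ', hΔ', T', hTU', h0', hT'⟩ := h'
  refine ⟨Δ ⊓ Δ', inferInstance, T'.comp T, fun u hu => hTU' _ (hTU u hu), ?_, ?_⟩
  · obtain ⟨u, hu, hu0⟩ := h0
    exact ⟨u, hu, fun h1 => hu0 (tw_inj hU' hΔ' h0' hT' _ (hTU u hu) h1)⟩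
  · intro g hg u hu
    rw [LinearMap.comp_apply, LinearMap.comp_apply, hT g hg.1 u hu, map_smul,
      hT' g hg.2 _ (hTU u hu), smul_smul]

theorem tw_refl (hU : U ≠ ⊥) : Tw R (fun _ => 1) U U := by
  refine ⟨⊤, inferInstance, LinearMap.id, fun u hu => hu, ?_, fun g _ u _ => ?_⟩
  · obtain ⟨u, hu, hu0⟩ := Submodule.exists_mem_ne_zero_of_ne_bot hU
    exact ⟨u, hu, hu0⟩
  · rw [one_smul]
    rfl

theorem Tw.symm1 (hU : SI R U) (hU' : SI R U') (h : Tw R (fun _ => 1) U U') :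
    Tw R (fun _ => 1) U' U := by
  have h1 := h.symm hU hU'
  simpa using h1

theorem Tw.trans1 (hU' : SI R U') (h : Tw R (fun _ => 1) U U') (h' : Tw R (fun _ => 1) U' U'') :
    Tw R (fun _ => 1) U U'' := by
  have h1 := h.trans hU' h'
  simpa using h1

end tw

section du

variable {U U' U'' : Submodule K X} {Δ : Subgroup Γ} {B : X →ₗ[K] X →ₗ[K] K}

theorem du_left (hU : SI R U) (hU' : Pot R U') (hΔ : Δ.FiniteIndex)
    (h0 : ∃ u ∈ U, ∃ v ∈ U', B u v ≠ 0)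
    (hB : ∀ g ∈ Δ, ∀ u ∈ U, ∀ v ∈ U', B (R g u) (R g v) = χ g * B u v) :
    ∀ u ∈ U, (∀ v ∈ U', B u v = 0) → u = 0 := by
  obtain ⟨Δ1, hΔ1, h1⟩ := hU.2.1
  obtain ⟨Δ2, hΔ2, h2⟩ := hU'
  let W : Submodule K X :=
    { carrier := {u | u ∈ U ∧ ∀ v ∈ U', B u v = 0}
      add_mem' := fun ha hb => ⟨U.add_mem ha.1 hb.1, fun v hv => by
        rw [map_add, LinearMap.add_apply, ha.2 v hv, hb.2 v hv, add_zero]⟩
      zero_mem' := ⟨U.zero_mem, fun v _ => by rw [map_zero, LinearMap.zero_apply]⟩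
      smul_mem' := fun c a ha => ⟨U.smul_mem _ ha.1, fun v hv => by
        rw [map_smul, LinearMap.smul_apply, ha.2 v hv, smul_zero]⟩ }
  have hW : Pot R W := by
    refine ⟨Δ ⊓ (Δ1 ⊓ Δ2), inferInstance, fun g hg u hu => ⟨h1 g hg.2.1 u hu.1, fun v hv => ?_⟩⟩
    have h3 := hB g hg.1 u hu.1 (R g⁻¹ v) (h2 _ (Δ2.inv_mem hg.2.2) v hv)
    rw [Rinv'] at h3
    rw [h3, hu.2 _ (h2 _ (Δ2.inv_mem hg.2.2) v hv), mul_zero]
  rcases hU.2.2 W (fun u hu => hu.1) hW with h3 | h3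
  · intro u hu huv
    have h4 : u ∈ W := ⟨hu, huv⟩
    rwa [h3, Submodule.mem_bot] at h4
  · obtain ⟨u, hu, v, hv, huv⟩ := h0
    rw [← h3] at hu
    exact absurd (hu.2 v hv) huv

theorem du_right (hU : Pot R U) (hU' : SI R U') (hΔ : Δ.FiniteIndex)
    (h0 : ∃ u ∈ U, ∃ v ∈ U', B u v ≠ 0)
    (hB : ∀ g ∈ Δ, ∀ u ∈ U, ∀ v ∈ U', B (R g u) (R g v) = χ g * B u v) :
    ∀ v ∈ U', (∀ u ∈ U, B u v = 0) → v = 0 := by
  obtain ⟨u, hu, v, hv, huv⟩ := h0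
  exact du_left (B := B.flip) hU' hU hΔ ⟨v, hv, u, hu, huv⟩ (fun g hg v hv u hu => hB g hg u hu v hv)

theorem Du.symm (h : Du R χ U U') : Du R χ U' U := by
  obtain ⟨Δ, hΔ, B, ⟨u, hu, v, hv, huv⟩, hB⟩ := h
  exact ⟨Δ, hΔ, B.flip, ⟨v, hv, u, hu, huv⟩, fun g hg v hv u hu => hB g hg u hu v hv⟩

theorem Tw.du (hU : SI R U) (hU' : SI R U') (h : Tw R (fun _ => 1) U' U) (h' : Du R χ U U'') :
    Du R χ U' U'' := by
  obtain ⟨Δ, hΔ, T, hTU, h0, hT⟩ := h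
  obtain ⟨Δ', hΔ', B, ⟨u, hu, v, hv, huv⟩, hB⟩ := h'
  have hmap := tw_map hU' hU hΔ hTU h0 hT
  refine ⟨Δ ⊓ Δ', inferInstance, B.comp T, ?_, ?_⟩
  · rw [← hmap] at hu
    obtain ⟨u', hu', rfl⟩ := hu
    exact ⟨u', hu', v, hv, huv⟩
  · intro g hg u hu v hv
    rw [LinearMap.comp_apply, LinearMap.comp_apply, hT g hg.1 u hu, one_smul,
      hB g hg.2 _ (hTU u hu) v hv]

variable [FiniteDimensional K X]

theorem Du.tw (hU : SI R U) (hU' : SI R U') (hU'' : SI R U'') (h : Du R χ U U')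
    (h' : Du R χ U U'') : Tw R (fun _ => 1) U' U'' := by
  obtain ⟨Δ, hΔ, B, h0, hB⟩ := h
  obtain ⟨Δ', hΔ', B', h0', hB'⟩ := h'
  obtain ⟨Δ1, hΔ1, h1⟩ := hU.2.1
  obtain ⟨Δ2, hΔ2, h2⟩ := hU'.2.1
  obtain ⟨Δ3, hΔ3, h3⟩ := hU''.2.1
  have hl := du_left hU hU''.2.1 hΔ' h0' hB'
  have hr := du_right hU.2.1 hU'' hΔ' h0' hB'
  let β : U' →ₗ[K] Dual K U := (B.compl₁₂ U.subtype U'.subtype).flip
  have hβ : ∀ (v : U') (u : U), β v u = B u v := fun _ _ => rfl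
  let β' : U'' →ₗ[K] Dual K U := (B'.compl₁₂ U.subtype U''.subtype).flip
  have hβ' : ∀ (v : U'') (u : U), β' v u = B' u v := fun _ _ => rfl
  have hinj : Function.Injective β' := by
    rw [injective_iff_map_eq_zero]
    intro v hv
    refine Subtype.ext (hr v v.2 fun u hu => ?_)
    exact congrArg (fun f : Dual K U => f ⟨u, hu⟩) hv
  have hinj' : Function.Injective (B'.compl₁₂ U.subtype U''.subtype) := by
    rw [injective_iff_map_eq_zero]
    intro u hu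
    refine Subtype.ext (hl u u.2 fun v hv => ?_)
    exact congrArg (fun f : Dual K U'' => f ⟨v, hv⟩) hu
  have hfin : finrank K U'' = finrank K (Dual K U) := by
    have h4 := LinearMap.finrank_le_finrank_of_injective hinj
    have h5 := LinearMap.finrank_le_finrank_of_injective hinj'
    rw [Subspace.dual_finrank_eq] at h4 h5 ⊢
    exact le_antisymm h4 h5
  have hbij : Function.Bijective β' :=
    ⟨hinj, (LinearMap.injective_iff_surjective_of_finrank_eq_finrank hfin).1 hinj⟩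
  let e := LinearEquiv.ofBijective β' hbij
  obtain ⟨p, hp⟩ := exists_pr U'
  let T : X →ₗ[K] X := U''.subtype.comp (e.symm.toLinearMap.comp (β.comp p))
  have hTU : ∀ v, T v ∈ U'' := fun v => SetLike.coe_mem _
  have hT : ∀ u ∈ U, ∀ v ∈ U', B' u (T v) = B u v := by
    intro u hu v hv
    have h4 : e (e.symm (β (p v))) = β (p v) := e.apply_symm_apply _
    have h5 := congrArg (fun f : Dual K U => f ⟨u, hu⟩) h4
    have h6 : p v = ⟨v, hv⟩ := hp ⟨v, hv⟩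
    rw [h6] at h5
    have h7 : (T v) = ((e.symm (β ⟨v, hv⟩) : U'') : X) := by
      change ((e.symm (β (p v)) : U'') : X) = _
      rw [h6]
    rw [h7]
    exact h5
  refine ⟨(Δ ⊓ Δ') ⊓ (Δ1 ⊓ (Δ2 ⊓ Δ3)), inferInstance, T, fun v _ => hTU v, ?_, ?_⟩
  · obtain ⟨u, hu, v, hv, huv⟩ := h0
    refine ⟨v, hv, fun h4 => huv ?_⟩
    rw [← hT u hu v hv, h4, map_zero]
  · intro g hg v hv
    rw [one_smul, ← sub_eq_zero]
    refine hr _ (U''.sub_mem (hTU _) (h3 g hg.2.2.2 _ (hTU _))) fun u hu => ?_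
    have hgu := h1 _ (Δ1.inv_mem hg.2.1) u hu
    have h4 := hB g hg.1.1 _ hgu v hv
    have h5 := hB' g hg.1.2 _ hgu _ (hTU v)
    have h6 : B' (R g (R g⁻¹ u)) (R g (T v)) = χ g * B' (R g⁻¹ u) (T v) := h5
    rw [Rinv'] at h4 h6
    rw [map_sub, hT u hu _ (h2 g hg.2.2.1 v hv), h4, h6, hT _ hgu v hv, sub_self]

end du

end Pool.Agent.W522.U
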