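import Mathlib
import Pool.Agent.H86.CMLib.W522.U.C3

/-!
# Self-dual strongly irreducible subspaces
-/

set_option linter.unusedSectionVars false

namespace Pool.Agent.W522.U

open Module Pool.Agent.H204R3.SP Pool.Agent.H204R3.GP

noncomputable section

theorem exists_pow_mem {Γ : Type*} [Group Γ] (Δ : Subgroup Γ) (hΔ : Δ.FiniteIndex) (g : Γ) :
    ∃ M : ℕ, M ≠ 0 ∧ g ^ M ∈ Δ := by
  refine ⟨Δ.normalCore.index, ?_, Δ.normalCore_le (Δ.normalCore.pow_index_mem g)⟩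
  have : Δ.normalCore.FiniteIndex := inferInstance
  exact this.index_ne_zero

theorem fi_map {Γ : Type*} [Group Γ] {Δ : Subgroup Γ} (hΔ : Δ.FiniteIndex) (Δ' : Subgroup Δ)
    (hΔ' : Δ'.FiniteIndex) : (Δ'.map Δ.subtype).FiniteIndex := by
  constructor
  rw [Subgroup.index_map_subtype]
  exact mul_ne_zero hΔ'.index_ne_zero hΔ.index_ne_zero

variable {K : Type*} [Field K] [CharZero K] {X : Type*} [AddCommGroup X] [Module K X]
  [FiniteDimensional K X]
  {Γ : Type*} [Group Γ] {R : Representation K Γ X} {χ : Γ →* K}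
  {U U' : Submodule K X} {Δ : Subgroup Γ}

/-- The nilpotent part of a quadratic unipotent element preserves potentially stable subspaces. -/
theorem unip_stable (hU : Pot R U) (γ : Γ) (h2 : (R γ - 1) * (R γ - 1) = 0) :
    ∀ u ∈ U, (R γ - 1) u ∈ U := by
  obtain ⟨Δ, hΔ, h1⟩ := hU
  obtain ⟨M, hM0, hM⟩ := exists_pow_mem Δ hΔ γ
  intro u hu
  have h3 := h1 _ hM u hu
  rw [unip_pow R γ h2, LinearMap.add_apply, LinearMap.smul_apply, Module.End.one_apply] at h3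
  have h4 : (M : K) • (R γ - 1) u ∈ U := by
    have h5 := U.sub_mem h3 hu
    rwa [add_sub_cancel_left] at h5
  have h6 : (M : K) ≠ 0 := Nat.cast_ne_zero.2 hM0
  have h7 := U.smul_mem (M : K)⁻¹ h4
  rwa [smul_smul, inv_mul_cancel₀ h6, one_smul] at h7

theorem unip_skew (hΔ : Δ.FiniteIndex) (B : X →ₗ[K] X →ₗ[K] K)
    (hB : ∀ g ∈ Δ, ∀ u ∈ U, ∀ v ∈ U', B (R g u) (R g v) = χ g * B u v)
    (γ : Γ) (h2 : (R γ - 1) * (R γ - 1) = 0) (hχ : χ γ = 1) :
    ∀ u ∈ U, ∀ v ∈ U', B ((R γ - 1) u) v + B u ((R γ - 1) v) = 0 := by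
  intro u hu v hv
  obtain ⟨M, hM0, hM⟩ := exists_pow_mem Δ hΔ γ
  have h3 : ∀ k : ℕ, (k : K) * (M * (B ((R γ - 1) u) v + B u ((R γ - 1) v)) + k * M ^ 2 *
      B ((R γ - 1) u) ((R γ - 1) v)) = 0 := by
    intro k
    have h4 := hB (γ ^ (k * M)) (by rw [mul_comm, pow_mul]; exact Δ.pow_mem hM k) u hu v hv
    have hχk : χ (γ ^ (k * M)) = 1 := by rw [map_pow, hχ, one_pow]
    rw [hχk, unip_pow R γ h2] at h4
    simp only [LinearMap.add_apply, LinearMap.smul_apply, Module.End.one_apply, map_add, map_smul,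
      smul_eq_mul] at h4
    push_cast at h4
    linear_combination h4
  have h4 := h3 1
  have h5 := h3 2
  have hMK : (M : K) ≠ 0 := Nat.cast_ne_zero.2 hM0
  apply mul_left_cancel₀ hMK
  push_cast at h4 h5
  linear_combination 2 * h4 - h5 / 2

theorem alt_of_unip (hU : SI R U) (hΔ : Δ.FiniteIndex) (B : X →ₗ[K] X →ₗ[K] K)
    (hB : ∀ g ∈ Δ, ∀ u ∈ U, ∀ v ∈ U, B (R g u) (R g v) = χ g * B u v)
    (γ : Γ) (h2 : (R γ - 1) * (R γ - 1) = 0) (hχ : χ γ = 1)
    (hr : finrank K (U.map (R γ - 1)) = 1) : ∀ u ∈ U, B u u = 0 := by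
  by_contra hcon
  push Not at hcon
  obtain ⟨w, hw, hw0⟩ := hcon
  let B' := B + B.flip
  have hB' : ∀ u v, B' u v = B u v + B v u := fun _ _ => rfl
  have h0 : ∃ u ∈ U, ∃ v ∈ U, B' u v ≠ 0 := by
    refine ⟨w, hw, w, hw, ?_⟩
    rw [hB', ← two_mul]
    exact mul_ne_zero two_ne_zero hw0
  have hinv : ∀ g ∈ Δ, ∀ u ∈ U, ∀ v ∈ U, B' (R g u) (R g v) = χ g * B' u v := by
    intro g hg u hu v hv
    rw [hB', hB', hB g hg u hu v hv, hB g hg v hv u hu, mul_add]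
  have hnd := du_left hU hU.2.1 hΔ h0 hinv
  have hsk := unip_skew hΔ B' hinv γ h2 hχ
  obtain ⟨⟨v, hv⟩, hv0, hspan⟩ := finrank_eq_one_iff'.1 hr
  have hv0' : v ≠ 0 := fun h => hv0 (Subtype.ext h)
  obtain ⟨x, hx, hxv⟩ := id hv
  have hvU : v ∈ U := by
    rw [← hxv]
    exact unip_stable hU.2.1 γ h2 x hx
  have h3 := hsk x hx x hx
  rw [hxv, hB', hB'] at h3
  have h4 : B' v x = 0 := by
    rw [hB']
    have h5 : 2 * (B v x + B x v) = 0 := by linear_combination h3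
    exact (mul_eq_zero.1 h5).resolve_left two_ne_zero
  apply hv0'
  refine hnd v hvU fun y hy => ?_
  have h5 := hsk x hx y hy
  obtain ⟨c, hc⟩ := hspan ⟨(R γ - 1) y, Submodule.mem_map_of_mem hy⟩
  have h6 : c • v = (R γ - 1) y := congrArg Subtype.val hc
  rw [hxv, ← h6, map_smul, smul_eq_mul] at h5
  have h7 : B' x v = 0 := by
    rw [hB', add_comm, ← hB']
    exact h4
  rw [h7, mul_zero, add_zero] at h5
  exact h5

/-- A bijective pairing. -/
theorem du_bij (hU : SI R U) (hU' : SI R U') (hΔ : Δ.FiniteIndex) (B : X →ₗ[K] X →ₗ[K] K)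
    (h0 : ∃ u ∈ U, ∃ v ∈ U', B u v ≠ 0)
    (hB : ∀ g ∈ Δ, ∀ u ∈ U, ∀ v ∈ U', B (R g u) (R g v) = χ g * B u v) :
    finrank K U = finrank K U' ∧ Function.Bijective (B.compl₁₂ U.subtype U'.subtype) := by
  have hl := du_left hU hU'.2.1 hΔ h0 hB
  have hr := du_right hU.2.1 hU' hΔ h0 hB
  have hinj : Function.Injective (B.compl₁₂ U.subtype U'.subtype) := by
    rw [injective_iff_map_eq_zero]
    intro u hu
    refine Subtype.ext (hl u u.2 fun v hv => ?_)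
    exact congrArg (fun f : Dual K U' => f ⟨v, hv⟩) hu
  have hinj' : Function.Injective (B.compl₁₂ U.subtype U'.subtype).flip := by
    rw [injective_iff_map_eq_zero]
    intro v hv
    refine Subtype.ext (hr v v.2 fun u hu => ?_)
    exact congrArg (fun f : Dual K U => f ⟨u, hu⟩) hv
  have h4 := LinearMap.finrank_le_finrank_of_injective hinj
  have h5 := LinearMap.finrank_le_finrank_of_injective hinj'
  rw [Subspace.dual_finrank_eq] at h4 h5
  have h6 := le_antisymm h4 h5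
  refine ⟨h6, hinj, (LinearMap.injective_iff_surjective_of_finrank_eq_finrank ?_).1 hinj⟩
  rw [Subspace.dual_finrank_eq]
  exact h6

theorem du_det (hU : SI R U) (hU' : SI R U') (hΔ : Δ.FiniteIndex) (B : X →ₗ[K] X →ₗ[K] K)
    (h0 : ∃ u ∈ U, ∃ v ∈ U', B u v ≠ 0)
    (hB : ∀ g ∈ Δ, ∀ u ∈ U, ∀ v ∈ U', B (R g u) (R g v) = χ g * B u v) {g : Γ} (hg : g ∈ Δ)
    (hgU : ∀ u ∈ U, R g u ∈ U) (hgU' : ∀ u ∈ U', R g u ∈ U') :
    LinearMap.det ((R g).restrict hgU) * LinearMap.det ((R g).restrict hgU') =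
      χ g ^ finrank K U :=
  det_pair _ (du_bij hU hU' hΔ B h0 hB).2 _ _ (χ g) fun u v => hB g hg u u.2 v v.2

/-- Self-dual subspaces which are twists of each other are potentially isomorphic. -/
theorem sp_twist (hU : SI R U) (hU' : SI R U') (hd : Du R χ U U) (hd' : Du R χ U' U')
    {ψ : Γ → K} (h : Tw R ψ U U') : Tw R (fun _ => 1) U U' := by
  obtain ⟨Δ, hΔ, T, hTU, h0, hT⟩ := h
  obtain ⟨Δ1, hΔ1, h1⟩ := hU.2.1
  obtain ⟨Δ2, hΔ2, h2⟩ := hU'.2.1
  obtain ⟨Δ3, hΔ3, B, hB0, hB⟩ := hd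
  obtain ⟨Δ4, hΔ4, B', hB0', hB'⟩ := hd'
  have hinj := tw_inj hU hΔ h0 hT
  have hmap := tw_map hU hU' hΔ hTU h0 hT
  let T1 : U →ₗ[K] U' := T.restrict hTU
  have hb : Function.Bijective T1 := by
    constructor
    · rw [injective_iff_map_eq_zero]
      intro u hu
      have h2 : T u = 0 := congrArg Subtype.val hu
      exact Subtype.ext (hinj u u.2 h2)
    · intro v
      have h2 : (v : X) ∈ U.map T := by
        rw [hmap]
        exact v.2
      obtain ⟨u, hu, huv⟩ := h2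
      exact ⟨⟨u, hu⟩, Subtype.ext huv⟩
  let e := LinearEquiv.ofBijective T1 hb
  let D : Subgroup Γ := (Δ ⊓ (Δ1 ⊓ Δ2)) ⊓ (Δ3 ⊓ Δ4)
  have hψ0 : ∀ g ∈ D, ψ g ≠ 0 := fun g hg => tw_ne hU hΔ h0 hT hg.1.1 (h1 g hg.1.2.1)
  have hψ : ∀ g ∈ D, ψ g ^ (2 * finrank K U) = 1 := by
    intro g hg
    have e1 := du_det hU hU hΔ3 B hB0 hB hg.2.1 (h1 g hg.1.2.1) (h1 g hg.1.2.1)
    have e2 := du_det hU' hU' hΔ4 B' hB0' hB' hg.2.2 (h2 g hg.1.2.2) (h2 g hg.1.2.2)
    have e3 := det_tw e ((R g).restrict (h1 g hg.1.2.1)) ((R g).restrict (h2 g hg.1.2.2)) (ψ g)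
      (fun u => Subtype.ext (hT g hg.1.1 u u.2))
    rw [e3] at e1
    rw [← e.finrank_eq] at e2
    have h5 : χ g ^ finrank K U ≠ 0 := pow_ne_zero _ (χne g)
    apply mul_left_cancel₀ h5
    rw [mul_one]
    conv_rhs => rw [← e1]
    rw [← e2, pow_mul]
    ring
  have hmul : ∀ g ∈ D, ∀ g' ∈ D, ψ (g * g') = ψ g * ψ g' := by
    intro g hg g' hg'
    obtain ⟨u, hu, hu0⟩ := h0
    have e1 := hT (g * g') (Δ.mul_mem hg.1.1 hg'.1.1) u hu
    have e2 := hT g hg.1.1 (R g' u) (h1 g' hg'.1.2.1 u hu)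
    rw [hT g' hg'.1.1 u hu, map_smul, smul_smul] at e2
    have e3 : R (g * g') u = R g (R g' u) := by
      rw [map_mul]
      rfl
    have e4 : R (g * g') (T u) = R g (R g' (T u)) := by
      rw [map_mul]
      rfl
    rw [e3, e4, e2] at e1
    have e5 : R g (R g' (T u)) ≠ 0 := Rne g (Rne g' hu0)
    exact (smul_left_injective K e5 e1).symm
  let f : D →* Kˣ := MonoidHom.mk' (fun g => Units.mk0 (ψ g.1) (hψ0 g.1 g.2)) (fun g g' =>
    Units.ext (hmul g.1 g.2 g'.1 g'.2))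
  have hfin : Finite f.range := by
    have hne : NeZero (2 * finrank K U) := by
      constructor
      have : finrank K U ≠ 0 := by
        rw [ne_eq, Submodule.finrank_eq_zero]
        exact hU.1
      omega
    have h5 : ((rootsOfUnity (2 * finrank K U) K : Subgroup Kˣ) : Set Kˣ).Finite :=
      Set.finite_coe_iff.1 (inferInstanceAs (Finite (rootsOfUnity (2 * finrank K U) K)))
    refine (h5.subset ?_).to_subtype
    rintro _ ⟨g, rfl⟩
    change f g ∈ rootsOfUnity _ K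
    rw [mem_rootsOfUnity]
    exact Units.ext (hψ g.1 g.2)
  have hDfi : D.FiniteIndex := inferInstance
  have hk : f.ker.FiniteIndex := Subgroup.finiteIndex_ker f
  refine ⟨f.ker.map D.subtype, fi_map hDfi _ hk, T, hTU, h0, ?_⟩
  rintro _ ⟨g, hg, rfl⟩ u hu
  have h5 : ψ g.1 = 1 := congrArg Units.val (MonoidHom.mem_ker.1 hg)
  have h6 := hT g.1 g.2.1.1 u hu
  rw [h5] at h6
  exact h6

end

end Pool.Agent.W522.U
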