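import Mathlib
import Pool.Agent.H86.CMLib.W522.U.C5

/-!
# The theorem for the sum of the representatives
-/

set_option linter.unusedSectionVars false

namespace Pool.Agent.W522.U

open Module Pool.Agent.H204R3.SP Pool.Agent.H204R3.GP

noncomputable section

variable {K : Type*} [Field K] [CharZero K] {X : Type*} [AddCommGroup X] [Module K X]
  [FiniteDimensional K X]
  {Γ : Type*} [Group Γ]

/-- The restriction to a stable subspace. -/
def resR (R : Representation K Γ X) (Δ : Subgroup Γ) (U : Submodule K X)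
    (hU : ∀ g ∈ Δ, ∀ u ∈ U, R g u ∈ U) : Representation K Δ U where
  toFun g := (R g.1).restrict (hU g.1 g.2)
  map_one' := by
    ext u
    simp
  map_mul' g h := by
    ext u
    simp

theorem resR_apply (R : Representation K Γ X) (Δ : Subgroup Γ) (U : Submodule K X)
    (hU : ∀ g ∈ Δ, ∀ u ∈ U, R g u ∈ U) (g : Δ) (u : U) :
    ((resR R Δ U hU g u : U) : X) = R g.1 u := rfl

variable {R : Representation K Γ X} {χ : Γ →* K}
  (ω : X →ₗ[K] X →ₗ[K] K) (hnd : ∀ u, (∀ v, ω u v = 0) → u = 0)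
  (hωR : ∀ g u v, ω (R g u) (R g v) = χ g * ω u v)
  (hR1 : ∀ U, SI R U → 2 ≤ finrank K U → ∃ γ : Γ, (R γ - 1) * (R γ - 1) = 0 ∧
    finrank K (U.map (R γ - 1)) = 1)
  (hR2 : ∀ U, SI R U → finrank K U = 1 → ¬Du R χ U U)
  (hH : ∀ U U', SI R U → SI R U' → 2 ≤ finrank K U → ¬Du R χ U U → ∀ ψ : Γ → K, Tw R ψ U U' →
    Tw R (fun _ => 1) U U')
  (hD : ∀ (s : ℕ) (U : Fin s → Submodule K X), (∀ i, SI R (U i)) →
    (∀ i j, ¬Du R χ (U i) (U j)) → (∀ i j, Tw R (fun _ => 1) (U i) (U j) → i = j) →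
    ∀ Δ : Subgroup Γ, Δ.FiniteIndex → ∀ (h : ∀ g ∈ Δ, ∀ i, ∀ u ∈ U i, R g u ∈ U i)
      (a : Fin s → ℤ), (∀ (g : Γ) (hg : g ∈ Δ),
        ∏ i, (LinearMap.det ((R g).restrict (h g hg i)) ^ 2 / χ g ^ finrank K (U i)) ^ a i = 1) →
      a = 0)

include hnd hωR in
theorem unip_chi' {U : Submodule K X} {γ : Γ} (h2 : (R γ - 1) * (R γ - 1) = 0)
    (hr : finrank K (U.map (R γ - 1)) = 1) : χ γ = 1 := by
  obtain ⟨⟨v, hv⟩, hv0, -⟩ := finrank_eq_one_iff'.1 hr
  obtain ⟨x, hx, hxv⟩ := id hv
  refine unip_chi ω hnd hωR γ h2 (u := x) ?_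
  rw [hxv]
  exact fun h => hv0 (Subtype.ext h)

theorem det_split {s : ℕ} (st : Fin s → Fin s) (hst : ∀ i, st (st i) = i) (f : Fin s → K)
    (hf : ∀ i, st i = i → f i = 1) :
    ∏ i, f i = ∏ i : {i // i < st i}, (f i.1 * f (st i.1)) := by
  classical
  have h1 : ∏ i, f i = (∏ i ∈ Finset.univ.filter (fun i => i < st i), f i) *
      ((∏ i ∈ Finset.univ.filter (fun i => st i < i), f i) *
        ∏ i ∈ Finset.univ.filter (fun i => st i = i), f i) := by
    rw [← Finset.prod_filter_mul_prod_filter_not Finset.univ (fun i => i < st i)]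
    congr 1
    rw [← Finset.prod_filter_mul_prod_filter_not _ (fun i => st i < i), Finset.filter_filter,
      Finset.filter_filter]
    congr 1
    · refine Finset.prod_congr ?_ fun _ _ => rfl
      ext i
      simp only [Finset.mem_filter, Finset.mem_univ, true_and]
      constructor
      · exact fun h => h.2
      · exact fun h => ⟨not_lt.2 h.le, h⟩
    · refine Finset.prod_congr ?_ fun _ _ => rfl
      ext i
      simp only [Finset.mem_filter, Finset.mem_univ, true_and]
      constructor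
      · exact fun h => le_antisymm (not_lt.1 h.1) (not_lt.1 h.2)
      · exact fun h => ⟨by rw [h]; exact lt_irrefl _, by rw [h]; exact lt_irrefl _⟩
  have h2 : ∏ i ∈ Finset.univ.filter (fun i => st i = i), f i = 1 :=
    Finset.prod_eq_one fun i hi => hf i (Finset.mem_filter.1 hi).2
  have h3 : ∏ i ∈ Finset.univ.filter (fun i => st i < i), f i =
      ∏ i ∈ Finset.univ.filter (fun i => i < st i), f (st i) := by
    refine Finset.prod_bij' (fun i _ => st i) (fun i _ => st i) ?_ ?_ ?_ ?_ ?_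
    · intro i hi
      rw [Finset.mem_filter] at hi ⊢
      exact ⟨Finset.mem_univ _, by rw [hst]; exact hi.2⟩
    · intro i hi
      rw [Finset.mem_filter] at hi ⊢
      exact ⟨Finset.mem_univ _, by rw [hst]; exact hi.2⟩
    · intro i _
      exact hst i
    · intro i _
      exact hst i
    · intro i _
      rw [hst]
  rw [h1, h2, h3, mul_one, ← Finset.prod_mul_distrib]
  exact Finset.prod_subtype _ (fun i => by simp) (fun i => f i * f (st i))

include hnd hωR hR1 hR2 hH hD in
theorem main_E [IsAlgClosed K] {s : ℕ} (W : Fin s → Submodule K X) (hW : ∀ i, SI R (W i))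
    (hWW : ∀ i j, Tw R (fun _ => 1) (W i) (W j) → i = j)
    (st : Fin s → Fin s) (hst : ∀ i, st (st i) = i) (hDu : ∀ i, Du R χ (W i) (W (st i)))
    (hDu' : ∀ i j, Du R χ (W i) (W j) → j = st i) :
    ∃ (Δ : Subgroup Γ) (_ : Δ.FiniteIndex) (hWΔ : ∀ i, ∀ g ∈ Δ, ∀ u ∈ W i, R g u ∈ W i),
      ∀ (m : ℕ) (φ : MultilinearMap K (fun _ : Fin m × Fin 2 => ∀ i, W i) K),
        IsTate (piRep (fun i => resR R Δ (W i) (hWΔ i))) (χ.comp Δ.subtype) m φ →
        φ ∈ Submodule.span K (PT (piRep (fun i => resR R Δ (W i) (hWΔ i)))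
          (χ.comp Δ.subtype) m) := by
  classical
  choose D hDfi hDs using fun i => (hW i).2.1
  choose D' hD' B hB0 hB using hDu
  let Δ : Subgroup Γ := ⨅ i, D i ⊓ D' i
  have hΔ : Δ.FiniteIndex := Subgroup.finiteIndex_iInf (fun i => inferInstance)
  have hm : ∀ g ∈ Δ, ∀ i, g ∈ D i ∧ g ∈ D' i := fun g hg i => Subgroup.mem_iInf.1 hg i
  have hWΔ : ∀ i, ∀ g ∈ Δ, ∀ u ∈ W i, R g u ∈ W i := fun i g hg u hu => hDs i g (hm g hg i).1 u hu
  have hpos : ∀ i, 0 < finrank K (W i) := by
    intro i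
    rw [Nat.pos_iff_ne_zero, ne_eq, Submodule.finrank_eq_zero]
    exact (hW i).1
  have hBalt : ∀ i, st i = i → ∀ u ∈ W i, B i u u = 0 := by
    intro i hi
    have hB' := hB i
    have hB0' := hB0 i
    rw [hi] at hB' hB0'
    rcases (show finrank K (W i) = 1 ∨ 2 ≤ finrank K (W i) by have := hpos i; omega) with h1 | h1
    · exact absurd ⟨D' i, hD' i, B i, hB0', hB'⟩ (hR2 _ (hW i) h1)
    · obtain ⟨γ, h2, hr⟩ := hR1 _ (hW i) h1
      exact alt_of_unip (hW i) (hD' i) (B i) hB' γ h2 (unip_chi' ω hnd hωR h2 hr) hr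
  have hBl : ∀ i j, j = st i → ∀ u ∈ W i, (∀ v ∈ W j, B i u v = 0) → u = 0 := by
    rintro i _ rfl
    exact du_left (hW i) (hW _).2.1 (hD' i) (hB0 i) (hB i)
  have hBr : ∀ i j, j = st i → ∀ v ∈ W j, (∀ u ∈ W i, B i u v = 0) → v = 0 := by
    rintro i _ rfl
    exact du_right (hW i).2.1 (hW _) (hD' i) (hB0 i) (hB i)
  have hBs : ∀ i j, j = st i → ∀ g ∈ Δ, ∀ u ∈ W i, ∀ v ∈ W j,
      B i (R g u) (R g v) = χ g * B i u v := by
    rintro i _ rfl g hg
    exact hB i g (hm g hg i).2
  let r : ∀ i, Representation K Δ (W i) := fun i => resR R Δ (W i) (hWΔ i)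
  have hr : ∀ (i : Fin s) (g : Δ) (u : W i), ((r i g u : W i) : X) = R g.1 u := fun _ _ _ => rfl
  -- the conditions
  have hsim : ∀ (g : Δ) u v, pf W st B (piRep r g u) (piRep r g v) =
      (χ.comp Δ.subtype) g * pf W st B u v := by
    intro g u v
    rw [pf_apply, pf_apply, Finset.mul_sum]
    refine Finset.sum_congr rfl fun i _ => ?_
    rw [Finset.mul_sum]
    refine Finset.sum_congr rfl fun j _ => ?_
    rw [piRep_apply, piRep_apply, hr, hr]
    change _ = χ g.1 * _
    unfold cf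
    by_cases h : j = st i
    · rw [if_pos h]
      rcases lt_trichotomy i j with h1 | h1 | h1
      · rw [if_pos h1]
        exact hBs i j h g.1 g.2 _ (u i).2 _ (v j).2
      · rw [if_neg (not_lt.2 h1.ge), if_neg (not_lt.2 h1.le)]
        exact hBs i j h g.1 g.2 _ (u i).2 _ (v j).2
      · rw [if_neg (not_lt.2 h1.le), if_pos h1, LinearMap.neg_apply, LinearMap.neg_apply,
          LinearMap.neg_apply, LinearMap.neg_apply, LinearMap.flip_apply, LinearMap.flip_apply,
          hBs j i (by rw [h, hst]) g.1 g.2 _ (v j).2 _ (u i).2, mul_neg]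
    · rw [if_neg h, LinearMap.zero_apply, LinearMap.zero_apply, LinearMap.zero_apply,
        LinearMap.zero_apply, mul_zero]
  have hor : ∀ i j, j ≠ st i → ∀ (u : W i) (v : W j),
      pf W st B (Pi.single i u) (Pi.single j v) = 0 := by
    intro i j hij u v
    rw [pf_single]
    unfold cf
    rw [if_neg hij, LinearMap.zero_apply, LinearMap.zero_apply]
  have htw : ∀ i j, i ≠ j → 2 ≤ finrank K (W i) → 2 ≤ finrank K (W j) →
      ∀ (T : W i →ₗ[K] W j) (ψ : Δ → K), (∀ g u, T (r i g u) = ψ g • r j g (T u)) → T = 0 := by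
    intro i j hij hi hj T ψ hT
    by_contra hT0
    obtain ⟨p, hp⟩ := exists_pr (W i)
    let ψ' : Γ → K := fun g => if h : g ∈ Δ then ψ ⟨g, h⟩ else 1
    have htw : Tw R ψ' (W i) (W j) := by
      refine ⟨Δ, hΔ, (W j).subtype.comp (T.comp p), fun u _ => SetLike.coe_mem _, ?_, ?_⟩
      · by_contra hcon
        push Not at hcon
        apply hT0
        ext u
        have h1 := hcon u u.2
        rw [LinearMap.comp_apply, LinearMap.comp_apply, hp] at h1
        exact h1
      · intro g hg u hu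
        have h1 := hT ⟨g, hg⟩ ⟨u, hu⟩
        have h2 : p (R g u) = r i ⟨g, hg⟩ ⟨u, hu⟩ := hp (r i ⟨g, hg⟩ ⟨u, hu⟩)
        have h3 : p u = ⟨u, hu⟩ := hp ⟨u, hu⟩
        have h4 : ψ' g = ψ ⟨g, hg⟩ := dif_pos hg
        rw [LinearMap.comp_apply, LinearMap.comp_apply, LinearMap.comp_apply,
          LinearMap.comp_apply, h2, h3, h1, h4]
        rfl
    have h1 : Tw R (fun _ => 1) (W i) (W j) := by
      by_cases h2 : Du R χ (W i) (W i)
      · by_cases h3 : Du R χ (W j) (W j)
        · exact sp_twist (hW i) (hW j) h2 h3 htw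
        · have h4 := hH _ _ (hW j) (hW i) hj h3 _ (htw.symm (hW i) (hW j))
          exact h4.symm1 (hW j) (hW i)
      · exact hH _ _ (hW i) (hW j) hi h2 _ htw
    exact hij (hWW _ _ h1)
  have hirr : ∀ i, Irr (r i) := by
    intro i Δ' hΔ' U hU
    have h1 : Pot R (U.map (W i).subtype) := by
      refine ⟨Δ'.map Δ.subtype, fi_map hΔ Δ' hΔ', ?_⟩
      rintro _ ⟨g, hg, rfl⟩ _ ⟨u, hu, rfl⟩
      exact ⟨r i g u, hU g hg u hu, rfl⟩
    rcases (hW i).2.2 _ (Submodule.map_subtype_le _ _) h1 with h2 | h2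
    · left
      rw [eq_bot_iff]
      intro u hu
      have h3 : (u : X) ∈ U.map (W i).subtype := ⟨u, hu, rfl⟩
      rw [h2, Submodule.mem_bot] at h3
      rw [Submodule.mem_bot]
      exact Subtype.ext h3
    · right
      rw [eq_top_iff]
      intro u _
      have h3 : (u : X) ∈ U.map (W i).subtype := by
        rw [h2]
        exact u.2
      obtain ⟨u', hu', huu⟩ := h3
      have h4 : u' = u := Subtype.ext huu
      rw [← h4]
      exact hu'
  have hnil : ∀ i, 2 ≤ finrank K (W i) → ∃ N ∈ lieT (piRep r) (χ.comp Δ.subtype), N * N = 0 ∧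
      ∃ (u : W i) (φ : Dual K (W i)), u ≠ 0 ∧ φ ≠ 0 ∧ ∀ x, N (Pi.single i x) i = φ x • u := by
    intro i hi
    obtain ⟨γ, h2, hrk⟩ := hR1 _ (hW i) hi
    have hχγ := unip_chi' ω hnd hωR h2 hrk
    obtain ⟨M, hM0, hM⟩ := exists_pow_mem Δ hΔ γ
    have hMK : (M : K) ≠ 0 := Nat.cast_ne_zero.2 hM0
    let g : Δ := ⟨γ ^ M, hM⟩
    have hcoord : ∀ (y : ∀ i, W i) (j : Fin s), (((piRep r g - 1) y j : W j) : X) =
        (M : K) • (R γ - 1) (y j : X) := by
      intro y j
      rw [LinearMap.sub_apply, Pi.sub_apply, Submodule.coe_sub, piRep_apply, hr,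
        Module.End.one_apply]
      change R (γ ^ M) _ - _ = _
      rw [unip_pow R γ h2, LinearMap.add_apply, LinearMap.smul_apply, Module.End.one_apply,
        add_sub_cancel_left]
    have hsq : (piRep r g - 1) * (piRep r g - 1) = 0 := by
      refine LinearMap.ext fun y => ?_
      funext j
      apply Subtype.ext
      rw [Module.End.mul_apply, hcoord, hcoord, map_smul, ← Module.End.mul_apply, h2]
      simp
    refine ⟨piRep r g - 1, unip_lieT _ _ g hsq ?_, hsq, ?_⟩
    · change χ (γ ^ M) = 1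
      rw [map_pow, hχγ, one_pow]
    · obtain ⟨⟨v, hv⟩, hv0, hspan⟩ := finrank_eq_one_iff'.1 hrk
      obtain ⟨x, hx, hxv⟩ := id hv
      have hst := unip_stable (hW i).2.1 γ h2
      have hvW : v ∈ W i := by
        rw [← hxv]
        exact hst x hx
      have hv0' : (⟨v, hvW⟩ : W i) ≠ 0 := by
        intro h
        apply hv0
        have h3 : v = 0 := congrArg (fun w : W i => (w : X)) h
        exact Subtype.ext h3
      obtain ⟨f, hf⟩ : ∃ f : Dual K (W i), f ⟨v, hvW⟩ = 1 := by
        obtain ⟨f, hf⟩ : ∃ f : Dual K (W i), f ⟨v, hvW⟩ ≠ 0 := by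
          by_contra h
          push Not at h
          exact hv0' ((Module.forall_dual_apply_eq_zero_iff K _).1 h)
        exact ⟨(f ⟨v, hvW⟩)⁻¹ • f, by
          rw [LinearMap.smul_apply, smul_eq_mul, inv_mul_cancel₀ hf]⟩
      have hN : ∀ y : W i, (R γ - 1) (y : X) = f ⟨(R γ - 1) y, hst y y.2⟩ • v := by
        intro y
        obtain ⟨c, hc⟩ := hspan ⟨(R γ - 1) y, Submodule.mem_map_of_mem y.2⟩
        have h6 : c • v = (R γ - 1) (y : X) := congrArg Subtype.val hc
        have h7 : (⟨(R γ - 1) y, hst y y.2⟩ : W i) = c • ⟨v, hvW⟩ := Subtype.ext h6.symm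
        rw [h7, map_smul, hf, smul_eq_mul, mul_one, h6]
      refine ⟨⟨v, hvW⟩, (M : K) • f.comp ((R γ - 1).restrict hst), hv0', ?_, ?_⟩
      · intro h
        have h1 := congrArg (fun φ : Dual K (W i) => φ ⟨x, hx⟩) h
        have h3 : (R γ - 1).restrict hst ⟨x, hx⟩ = ⟨v, hvW⟩ := Subtype.ext hxv
        rw [LinearMap.smul_apply, LinearMap.comp_apply, h3, hf, LinearMap.zero_apply, smul_eq_mul,
          mul_one] at h1
        exact hMK h1
      · intro y
        apply Subtype.ext
        rw [hcoord, Pi.single_eq_same, LinearMap.smul_apply, LinearMap.comp_apply,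
          Submodule.coe_smul, smul_eq_mul, mul_smul]
        congr 1
        exact hN y
  have hdet : ∀ a : Fin s → ℤ, (∀ i, a (st i) = -a i) →
      (∀ g : Δ, ∏ i, LinearMap.det (r i g) ^ a i = 1) → a = 0 := by
    intro a ha hag
    let eqv := (Fintype.equivFin {i // i < st i}).symm
    have h1 := hD (Fintype.card {i // i < st i}) (fun l => W (eqv l).1) (fun l => hW _)
      (fun l l' h => by
        have h2 := hDu' _ _ h
        have h3 := (eqv l).2
        have h4 := (eqv l').2
        rw [h2, hst] at h4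
        exact lt_asymm h3 h4)
      (fun l l' h => eqv.injective (Subtype.ext (hWW _ _ h)))
      Δ hΔ (fun g hg l u hu => hWΔ _ g hg u hu) (fun l => a (eqv l).1) (fun g hg => by
        have h5 := hag ⟨g, hg⟩
        rw [det_split st hst _ (fun i hi => by
          have h6 := ha i
          rw [hi] at h6
          have h7 : a i = 0 := by omega
          rw [h7, zpow_zero])] at h5
        rw [← h5, ← eqv.prod_comp]
        refine Finset.prod_congr rfl fun l _ => ?_
        set i := (eqv l).1 with hi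
        have h8 := du_det (hW i) (hW (st i)) (hD' i) (B i) (hB0 i) (hB i) (hm g hg i).2
          (hWΔ i g hg) (hWΔ (st i) g hg)
        have h9 : χ g ^ finrank K (W i) ≠ 0 := pow_ne_zero _ (χne g)
        change (LinearMap.det ((R g).restrict (hWΔ i g hg)) ^ 2 / χ g ^ finrank K (W i)) ^ a i =
          LinearMap.det ((R g).restrict (hWΔ i g hg)) ^ a i *
            LinearMap.det ((R g).restrict (hWΔ (st i) g hg)) ^ a (st i)
        rw [← h8] at h9 ⊢
        have h10 := left_ne_zero_of_mul h9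
        have h11 := right_ne_zero_of_mul h9
        rw [ha, zpow_neg, ← div_eq_mul_inv, ← div_zpow]
        congr 1
        field_simp)
    have h2 : ∀ i, i < st i → a i = 0 := by
      intro i hi
      have h3 := congrFun h1 (eqv.symm ⟨i, hi⟩)
      rw [Equiv.apply_symm_apply] at h3
      exact h3
    funext i
    rcases lt_trichotomy i (st i) with h3 | h3 | h3
    · exact h2 i h3
    · have h4 := ha i
      rw [← h3] at h4
      change a i = 0
      omega
    · have h4 := ha i
      rw [h2 (st i) (by rw [hst]; exact h3)] at h4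
      change a i = 0
      omega
  refine ⟨Δ, hΔ, hWΔ, fun m φ hφ => ?_⟩
  exact main_pi (pf W st B) (pf_alt W st B hst hBalt) (pf_nondeg W st B hst hBl hBr) hsim st hst
    hor htw (fun i _ => hirr i) hnil hdet (hasProj_pi hirr) φ hφ

end

end Pool.Agent.W522.U
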