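import Mathlib
import Pool.Agent.H86.CMLib.W522.U.C6

/-!
# The theorem over an algebraically closed field
-/

set_option linter.unusedSectionVars false

namespace Pool.Agent.W522.U

open Module Pool.Agent.H204R3.SP Pool.Agent.H204R3.GP

noncomputable section

variable {K : Type*} [Field K] [CharZero K] {X : Type*} [AddCommGroup X] [Module K X]
  [FiniteDimensional K X]
  {Γ : Type*} [Group Γ] {R : Representation K Γ X} {χ : Γ →* K}

theorem tw_equiv {U U' : Submodule K X} {Δ : Subgroup Γ} {T : X →ₗ[K] X} {ψ : Γ → K}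
    (hU : SI R U) (hU' : SI R U') (hΔ : Δ.FiniteIndex) (hTU : ∀ u ∈ U, T u ∈ U')
    (h0 : ∃ u ∈ U, T u ≠ 0) (hT : ∀ g ∈ Δ, ∀ u ∈ U, T (R g u) = ψ g • R g (T u)) :
    ∃ e : U ≃ₗ[K] U', ∀ u : U, (e u : X) = T u := by
  have hinj := tw_inj hU hΔ h0 hT
  have hmap := tw_map hU hU' hΔ hTU h0 hT
  let T1 : U →ₗ[K] U' := T.restrict hTU
  have hb : Function.Bijective T1 := by
    constructor
    · rw [injective_iff_map_eq_zero]
      intro u hu
      have h2 : T u = 0 := congrArg Subtype.val hu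
      exact Subtype.ext (hinj u u.2 h2)
    · intro v
      have h2 : (v : X) ∈ U.map T := by
        rw [hmap]
        exact v.2
      obtain ⟨u, hu, huv⟩ := h2
      exact ⟨⟨u, hu⟩, Subtype.ext huv⟩
  exact ⟨LinearEquiv.ofBijective T1 hb, fun u => rfl⟩

variable (R) in
/-- The endomorphisms which factor through a representative. -/
def FS {s : ℕ} (W : Fin s → Submodule K X) : Set (Module.End K X) :=
  {T | ∃ (i : Fin s) (p : X →ₗ[K] W i) (ι : W i →ₗ[K] X) (Δ : Subgroup Γ), Δ.FiniteIndex ∧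
    (∀ g ∈ Δ, ∀ x, (p (R g x) : X) = R g (p x)) ∧
    (∀ g ∈ Δ, ∀ (u u' : W i), (u' : X) = R g u → ι u' = R g (ι u)) ∧ T = ι.comp p}

theorem decomp_aux (hss : HasProj R) {s : ℕ} (W : Fin s → Submodule K X) (hW : ∀ i, SI R (W i))
    (hall : ∀ U, SI R U → ∃ i, Tw R (fun _ => 1) U (W i)) (n : ℕ) :
    ∀ (Y : Submodule K X) (P : Module.End K X), finrank K Y = n → Pot R Y → (∀ x, P x ∈ Y) →
      (∀ y ∈ Y, P y = y) → (∃ Δ : Subgroup Γ, Δ.FiniteIndex ∧ ∀ g ∈ Δ, ∀ x,
        P (R g x) = R g (P x)) → P ∈ Submodule.span K (FS R W) := by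
  induction n using Nat.strong_induction_on with
  | _ n ih =>
    rintro Y P hn hY hP1 hP2 ⟨Δ, hΔ, hP3⟩
    by_cases h0 : Y = ⊥
    · have h1 : P = 0 := by
        ext x
        have h2 := hP1 x
        rwa [h0, Submodule.mem_bot] at h2
      rw [h1]
      exact Submodule.zero_mem _
    obtain ⟨U, hUY, hU⟩ := exists_SI (R := R) _ Y rfl h0 hY
    obtain ⟨Δ1, hΔ1, h1⟩ := hU.2.1
    obtain ⟨Q, hQ1, hQ2, hQ3⟩ := hss Δ1 hΔ1 U h1
    have h2 : P - Q * P ∈ Submodule.span K (FS R W) := by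
      refine ih (finrank K (Y ⊓ LinearMap.ker Q : Submodule K X)) ?_ (Y ⊓ LinearMap.ker Q) _ rfl
        (hY.inf ⟨Δ1, hΔ1, fun g hg u hu => ?_⟩) (fun x => ⟨?_, ?_⟩) (fun y hy => ?_)
        ⟨Δ ⊓ Δ1, inferInstance, fun g hg x => ?_⟩
      · rw [← hn]
        refine Submodule.finrank_lt_finrank_of_lt (lt_of_le_of_ne inf_le_left fun h => ?_)
        obtain ⟨u, hu, hu0⟩ := Submodule.exists_mem_ne_zero_of_ne_bot hU.1
        apply hu0
        have h3 : u ∈ Y ⊓ LinearMap.ker Q := by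
          rw [h]
          exact hUY hu
        rw [← hQ2 u hu]
        exact h3.2
      · change Q (R g u) = 0
        rw [hQ3 g hg, LinearMap.mem_ker.1 hu, map_zero]
      · exact Y.sub_mem (hP1 x) (hUY (hQ1 _))
      · change Q (P x - Q (P x)) = 0
        rw [map_sub, hQ2 _ (hQ1 _), sub_self]
      · have h3 : Q y = 0 := hy.2
        rw [LinearMap.sub_apply, Module.End.mul_apply, hP2 y hy.1, h3, sub_zero]
      · rw [LinearMap.sub_apply, LinearMap.sub_apply, Module.End.mul_apply,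
          Module.End.mul_apply, hP3 g hg.1, hQ3 g hg.2, map_sub]
    have h3 : Q * P ∈ FS R W := by
      obtain ⟨i, Δ2, hΔ2, T, hTU, hT0, hT⟩ := hall U hU
      obtain ⟨e, he⟩ := tw_equiv hU (hW i) hΔ2 hTU hT0 hT
      refine ⟨i, e.toLinearMap.comp ((Q * P).codRestrict U fun x => hQ1 _),
        U.subtype.comp e.symm.toLinearMap, Δ ⊓ (Δ1 ⊓ Δ2), inferInstance, fun g hg x => ?_,
        fun g hg u u' huu => ?_, ?_⟩
      · change (e ⟨Q (P (R g x)), _⟩ : X) = R g (e ⟨Q (P x), _⟩ : X)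
        rw [he, he]
        change T (Q (P (R g x))) = R g (T (Q (P x)))
        rw [hP3 g hg.1, hQ3 g hg.2.1, hT g hg.2.2 _ (hQ1 _), one_smul]
      · change ((e.symm u' : U) : X) = R g ((e.symm u : U) : X)
        have h4 : e.symm u' = ⟨R g (e.symm u), h1 g hg.2.1 _ (e.symm u).2⟩ := by
          rw [LinearEquiv.symm_apply_eq]
          apply Subtype.ext
          rw [he]
          change (u' : X) = T (R g (e.symm u))
          rw [hT g hg.2.2 _ (e.symm u).2, one_smul, ← he, e.apply_symm_apply, huu]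
        rw [h4]
      · ext x
        change Q (P x) = ((e.symm (e ⟨Q (P x), _⟩) : U) : X)
        rw [e.symm_apply_apply]
    have h4 : P = (P - Q * P) + Q * P := by abel
    rw [h4]
    exact Submodule.add_mem _ h2 (Submodule.subset_span h3)

theorem decomp (hss : HasProj R) {s : ℕ} (W : Fin s → Submodule K X) (hW : ∀ i, SI R (W i))
    (hall : ∀ U, SI R U → ∃ i, Tw R (fun _ => 1) U (W i)) :
    (1 : Module.End K X) ∈ Submodule.span K (FS R W) :=
  decomp_aux hss W hW hall _ ⊤ 1 rfl pot_top (fun _ => trivial) (fun _ _ => rfl)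
    ⟨⊤, inferInstance, fun _ _ _ => rfl⟩

/-- From the sum of the representatives to the whole space. -/
theorem tate_of_reps (hss : HasProj R) {s : ℕ} (W : Fin s → Submodule K X) (hW : ∀ i, SI R (W i))
    (hall : ∀ U, SI R U → ∃ i, Tw R (fun _ => 1) U (W i))
    (Δ : Subgroup Γ) (hΔ : Δ.FiniteIndex) (hWΔ : ∀ i, ∀ g ∈ Δ, ∀ u ∈ W i, R g u ∈ W i) (m : ℕ)
    (hE : ∀ (φ : MultilinearMap K (fun _ : Fin m × Fin 2 => ∀ i, W i) K),
        IsTate (piRep (fun i => resR R Δ (W i) (hWΔ i))) (χ.comp Δ.subtype) m φ →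
        φ ∈ Submodule.span K (PT (piRep (fun i => resR R Δ (W i) (hWΔ i)))
          (χ.comp Δ.subtype) m))
    (φ : MultilinearMap K (fun _ : Fin m × Fin 2 => X) K) (hφ : IsTate R χ m φ) :
    φ ∈ Submodule.span K (PT R χ m) := by
  classical
  obtain ⟨Δφ, hΔφ, hφ⟩ := hφ
  obtain ⟨n, f, T, hfT⟩ := Submodule.mem_span_set'.1 (decomp hss W hW hall)
  choose i p ι D hD hp hι hT using fun l => (T l).2
  -- expansion
  have hexp : φ = ∑ L : Fin m × Fin 2 → Fin n, (∏ k, f (L k)) •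
      φ.compLinearMap (fun k => (T (L k)).1) := by
    ext v
    rw [sum_apply]
    have h1 : v = fun k => ∑ l, f l • (T l).1 (v k) := by
      funext k
      have h2 := congrArg (fun F : Module.End K X => F (v k)) hfT
      simp only [LinearMap.sum_apply, LinearMap.smul_apply, Module.End.one_apply] at h2
      exact h2.symm
    conv_lhs => rw [h1]
    rw [MultilinearMap.map_sum]
    refine Finset.sum_congr rfl fun L _ => ?_
    rw [MultilinearMap.map_smul_univ]
    rfl
  rw [hexp]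
  refine Submodule.sum_mem _ fun L _ => Submodule.smul_mem _ _ ?_
  -- the form on the sum of the representatives
  let r := fun i => resR R Δ (W i) (hWΔ i)
  let φL : MultilinearMap K (fun _ : Fin m × Fin 2 => ∀ i, W i) K :=
    φ.compLinearMap (fun k => (ι (L k)).comp (LinearMap.proj (i (L k))))
  have hDD : (⨅ l, D l).FiniteIndex := Subgroup.finiteIndex_iInf hD
  have hφL : IsTate (piRep r) (χ.comp Δ.subtype) m φL := by
    refine ⟨(Δφ ⊓ ⨅ l, D l).subgroupOf Δ, inferInstance, fun g hg w => ?_⟩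
    rw [Subgroup.mem_subgroupOf] at hg
    change φ (fun k => ι (L k) (piRep r g (w k) (i (L k)))) = χ g.1 ^ m * φ (fun k => _)
    rw [← hφ g.1 hg.1]
    congr 1
    funext k
    exact hι (L k) g.1 (Subgroup.mem_iInf.1 hg.2 _) _ _ rfl
  let q : Fin m × Fin 2 → (X →ₗ[K] ∀ i, W i) := fun k =>
    (LinearMap.single K (fun i => W i) (i (L k))).comp (p (L k))
  have hq : ∀ (k : Fin m × Fin 2) (g : Γ) (hg : g ∈ Δ), g ∈ (⨅ l, D l) → ∀ x,
      q k (R g x) = piRep r ⟨g, hg⟩ (q k x) := by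
    intro k g hg hg' x
    change (Pi.single (i (L k)) (p (L k) (R g x)) : ∀ i, W i) =
      piRep r ⟨g, hg⟩ (Pi.single (i (L k)) (p (L k) x))
    rw [piRep_single]
    congr 1
    exact Subtype.ext (hp (L k) g (Subgroup.mem_iInf.1 hg' _) x)
  have h1 : φ.compLinearMap (fun k => (T (L k)).1) = MultilinearMap.compLinearMapₗ q φL := by
    ext v
    change φ (fun k => (T (L k)).1 (v k)) = φ (fun k => ι (L k)
      ((Pi.single (i (L k)) (p (L k) (v k)) : ∀ i, W i) (i (L k))))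
    congr 1
    funext k
    rw [hT, Pi.single_eq_same]
    rfl
  rw [h1]
  have h2 : (Submodule.span K (PT (piRep r) (χ.comp Δ.subtype) m)).map
      (MultilinearMap.compLinearMapₗ q) ≤ Submodule.span K (PT R χ m) := by
    rw [Submodule.map_span, Submodule.span_le]
    rintro _ ⟨_, ⟨σ, B, hB, rfl⟩, rfl⟩
    refine Submodule.subset_span ⟨σ, fun l => (B l).compl₁₂ (q (σ (l, 0))) (q (σ (l, 1))),
      fun l => ?_, ?_⟩
    · obtain ⟨ΔB, hΔB, hB'⟩ := hB l
      have hfi := fi_map hΔ ΔB hΔB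
      refine ⟨ΔB.map Δ.subtype ⊓ ⨅ l, D l, inferInstance, ?_⟩
      rintro _ ⟨⟨g, hg, rfl⟩, hg2⟩ u v
      change B l (q _ (R g.1 u)) (q _ (R g.1 v)) = χ g.1 * B l (q _ u) (q _ v)
      rw [hq _ g.1 g.2 hg2, hq _ g.1 g.2 hg2]
      exact hB' g hg _ _
    · rfl
  exact h2 (Submodule.mem_map_of_mem (hE φL hφL))

end

end Pool.Agent.W522.U
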